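import Pool.Agent.LibTA48.Limit

/-!
Real exponents.
-/

namespace Pool.Agent.LibTA48

open Function Filter Pool.Agent.LibNexp Pool.Agent.LibSpec4

/-- Functions bounded by `2 ^ O(n ^ l)`. -/
def TB (l : ℝ) (T : ℕ → ℕ) : Prop := ∃ C : ℕ, ∀ n : ℕ, T n ≤ 2 ^ (C * ⌈(n : ℝ) ^ l⌉₊ + C)

theorem TB.mono {l : ℝ} {T T' : ℕ → ℕ} (h : TB l T') (hT : ∀ n, T n ≤ T' n) : TB l T := by
  obtain ⟨C, hC⟩ := h
  exact ⟨C, fun n => le_trans (hT n) (hC n)⟩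

theorem TB.add {l : ℝ} {T T' : ℕ → ℕ} (h : TB l T) (h' : TB l T') : TB l fun n => T n + T' n := by
  obtain ⟨C, hC⟩ := h
  obtain ⟨C', hC'⟩ := h'
  refine ⟨C + C' + 1, fun n => ?_⟩
  have h1 := hC n
  have h2 := hC' n
  set y := ⌈(n : ℝ) ^ l⌉₊
  have h3 : 2 ^ (C * y + C) ≤ 2 ^ (C * y + C + (C' * y + C')) :=
    Nat.pow_le_pow_right (by norm_num) (by omega)
  have h4 : 2 ^ (C' * y + C') ≤ 2 ^ (C * y + C + (C' * y + C')) :=
    Nat.pow_le_pow_right (by norm_num) (by omega)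
  have h5 : 2 ^ (C * y + C + (C' * y + C') + 1) ≤ 2 ^ ((C + C' + 1) * y + (C + C' + 1)) :=
    Nat.pow_le_pow_right (by norm_num) (by nlinarith)
  rw [pow_succ] at h5
  show T n + T' n ≤ _
  omega

theorem TB.const {l : ℝ} (a : ℕ) : TB l fun _ => a := ⟨a, fun n =>
  le_trans Nat.lt_two_pow_self.le (Nat.pow_le_pow_right (by norm_num) (Nat.le_add_left _ _))⟩

theorem le_ceil {l : ℝ} (hl : 1 ≤ l) (n : ℕ) : n ≤ ⌈(n : ℝ) ^ l⌉₊ := by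
  rcases Nat.eq_zero_or_pos n with rfl | hn
  · exact Nat.zero_le _
  · have h1 : (1 : ℝ) ≤ n := by exact_mod_cast hn
    have h2 : (n : ℝ) ^ (1 : ℝ) ≤ (n : ℝ) ^ l := Real.rpow_le_rpow_of_exponent_le h1 hl
    rw [Real.rpow_one] at h2
    have h3 := le_trans h2 (Nat.le_ceil _)
    exact_mod_cast h3

theorem TB.pow_lin {l : ℝ} (hl : 1 ≤ l) (c d : ℕ) : TB l fun n => 2 ^ (c * n + d) := by
  refine ⟨c + d, fun n => Nat.pow_le_pow_right (by norm_num) ?_⟩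
  have := le_ceil hl n
  nlinarith [Nat.mul_le_mul_left c this]

theorem TB.lin {l : ℝ} (hl : 1 ≤ l) (c d : ℕ) : TB l fun n => c * n + d :=
  (TB.pow_lin hl c d).mono fun _ => Nat.lt_two_pow_self.le

/-- `(c n + d) ^ k` is at most a constant times `n ^ l + 1` for `0 ≤ k ≤ l`. -/
theorem rpow_lin_le {k l : ℝ} (hk : 0 ≤ k) (hkl : k ≤ l) (c d n : ℕ) :
    ((c * n + d : ℕ) : ℝ) ^ k ≤ ((c + d : ℕ) : ℝ) ^ k * ((n : ℝ) ^ l + 1) := by
  have h0 : (0 : ℝ) ≤ (n : ℝ) ^ l := by positivity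
  have h0' : (0 : ℝ) ≤ ((c + d : ℕ) : ℝ) ^ k := by positivity
  rcases Nat.eq_zero_or_pos n with rfl | hn
  · have h1 : ((c * 0 + d : ℕ) : ℝ) ^ k ≤ ((c + d : ℕ) : ℝ) ^ k := by
      refine Real.rpow_le_rpow (by positivity) ?_ hk
      exact_mod_cast (by omega : c * 0 + d ≤ c + d)
    nlinarith
  · have h1 : ((c * n + d : ℕ) : ℝ) ^ k ≤ ((((c + d) * n : ℕ)) : ℝ) ^ k := by
      refine Real.rpow_le_rpow (by positivity) ?_ hk
      have : c * n + d ≤ (c + d) * n := by nlinarith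
      exact_mod_cast this
    have h2 : (1 : ℝ) ≤ n := by exact_mod_cast hn
    have h3 : (n : ℝ) ^ k ≤ (n : ℝ) ^ l := Real.rpow_le_rpow_of_exponent_le h2 hkl
    rw [Nat.cast_mul, Real.mul_rpow (by positivity) (by positivity)] at h1
    nlinarith

theorem ceil_lin_le {k l : ℝ} (hk : 0 ≤ k) (hkl : k ≤ l) (c d : ℕ) :
    ∃ B : ℕ, ∀ n : ℕ, ⌈((c * n + d : ℕ) : ℝ) ^ k⌉₊ ≤ B * ⌈(n : ℝ) ^ l⌉₊ + B := by
  refine ⟨⌈((c + d : ℕ) : ℝ) ^ k⌉₊, fun n => Nat.ceil_le.2 ?_⟩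
  refine le_trans (rpow_lin_le hk hkl c d n) ?_
  have h1 := Nat.le_ceil (((c + d : ℕ) : ℝ) ^ k)
  have h2 := Nat.le_ceil ((n : ℝ) ^ l)
  have h3 : (0 : ℝ) ≤ (n : ℝ) ^ l := by positivity
  push_cast at h1 ⊢
  nlinarith

theorem TB.rpow {k l : ℝ} (hk : 0 ≤ k) (hkl : k ≤ l) (A c d : ℕ) :
    TB l fun n => 2 ^ (A * ⌈((c * n + d : ℕ) : ℝ) ^ k⌉₊) := by
  obtain ⟨B, hB⟩ := ceil_lin_le hk hkl c d
  refine ⟨A * B, fun n => Nat.pow_le_pow_right (by norm_num) ?_⟩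
  refine le_trans (Nat.mul_le_mul_left A (hB n)) (le_of_eq ?_)
  ring

theorem TB.comp_lin {l : ℝ} (hl : 0 ≤ l) {T : ℕ → ℕ} (h : TB l T) (c d : ℕ) :
    TB l fun n => T (c * n + d) := by
  obtain ⟨C, hC⟩ := h
  obtain ⟨B, hB⟩ := ceil_lin_le hl le_rfl c d
  refine ⟨C * B + C, fun n => le_trans (hC _) (Nat.pow_le_pow_right (by norm_num) ?_)⟩
  have := Nat.mul_le_mul_left C (hB n)
  nlinarith [Nat.zero_le (C * ⌈(n : ℝ) ^ l⌉₊)]

theorem tendsto_rpow {s : ℝ} (hs : 0 < s) : Tendsto (fun n : ℕ => (n : ℝ) ^ s) atTop atTop :=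
  (tendsto_rpow_atTop hs).comp tendsto_natCast_atTop_atTop

theorem eventually_mul_le {l m : ℝ} (hl : 0 ≤ l) (hlm : l < m) (A B : ℝ) (hB : 0 ≤ B) :
    ∀ᶠ n : ℕ in atTop, A * (n : ℝ) ^ l + B ≤ (n : ℝ) ^ m := by
  filter_upwards [(tendsto_rpow (sub_pos.2 hlm)).eventually_ge_atTop (A + B),
    eventually_ge_atTop 1] with n h1 h2
  have h3 : (1 : ℝ) ≤ n := by exact_mod_cast h2
  have h4 : (1 : ℝ) ≤ (n : ℝ) ^ l := Real.one_le_rpow h3 hl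
  have h5 : (n : ℝ) ^ m = (n : ℝ) ^ l * (n : ℝ) ^ (m - l) := by
    rw [← Real.rpow_add (by linarith)]
    congr 1
    ring
  rw [h5]
  nlinarith

theorem eventually_time {l m : ℝ} (hl : 0 ≤ l) (hlm : l < m) (c b d : ℕ) :
    ∀ᶠ n : ℕ in atTop, c * ⌈((b * n + d : ℕ) : ℝ) ^ l⌉₊ + c ≤ ⌈(n : ℝ) ^ m⌉₊ := by
  obtain ⟨B, hB⟩ := ceil_lin_le hl le_rfl b d
  filter_upwards [eventually_mul_le hl hlm (c * B : ℝ) (c * B * 2 + c : ℝ) (by positivity)]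
    with n h1
  have h2 := Nat.mul_le_mul_left c (hB n)
  have h3 := Nat.le_ceil ((n : ℝ) ^ m)
  have h4 := (Nat.ceil_lt_add_one (show (0 : ℝ) ≤ (n : ℝ) ^ l by positivity)).le
  have h5 : ((c * ⌈((b * n + d : ℕ) : ℝ) ^ l⌉₊ + c : ℕ) : ℝ) ≤ (⌈(n : ℝ) ^ m⌉₊ : ℝ) := by
    have h6 : ((c * ⌈((b * n + d : ℕ) : ℝ) ^ l⌉₊ : ℕ) : ℝ) ≤ ((c * (B * ⌈(n : ℝ) ^ l⌉₊ + B) : ℕ) : ℝ) := by
      exact_mod_cast h2
    rw [Nat.cast_add]
    refine le_trans (add_le_add_left h6 _) ?_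
    refine le_trans ?_ h3
    refine le_trans ?_ h1
    push_cast
    have h7 : (0 : ℝ) ≤ c * B := by positivity
    nlinarith
  exact_mod_cast h5

theorem pow_ge {e : ℕ} (he : 8 ≤ e) : 3 * (e * e) + 3 ≤ 2 ^ e := by
  induction e, he using Nat.le_induction with
  | base => norm_num
  | succ e he ih =>
    rw [pow_succ]
    nlinarith

theorem eventually_gap {l m : ℝ} (hl : 1 / 2 ≤ l) (hlm : l < m) :
    ∀ᶠ n : ℕ in atTop, 3 * n + 2 + 2 ^ ⌈(n : ℝ) ^ l⌉₊ ≤ 2 ^ ⌈(n : ℝ) ^ m⌉₊ := by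
  filter_upwards [eventually_mul_le (by linarith) hlm 1 2 (by norm_num),
    eventually_ge_atTop 64] with n h1 h2
  have h64 : (64 : ℝ) ≤ n := by exact_mod_cast h2
  have h3 : (n : ℝ) ^ (1 / 2 : ℝ) ≤ (n : ℝ) ^ l :=
    Real.rpow_le_rpow_of_exponent_le (by linarith) hl
  set e := ⌈(n : ℝ) ^ l⌉₊ with he
  have h4 : Real.sqrt n ≤ e := by
    rw [Real.sqrt_eq_rpow]
    exact le_trans h3 (Nat.le_ceil _)
  have h5 : n ≤ e * e := by
    have h6 : (n : ℝ) ≤ (e : ℝ) * e := by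
      have h7 := Real.mul_self_sqrt (show (0 : ℝ) ≤ n by positivity)
      have h8 := Real.sqrt_nonneg (n : ℝ)
      nlinarith
    exact_mod_cast h6
  have h6 : 8 ≤ e := by
    by_contra hcon
    have : e * e ≤ 7 * 7 := Nat.mul_le_mul (by omega) (by omega)
    omega
  have h7 := pow_ge h6
  have h8 : e + 1 ≤ ⌈(n : ℝ) ^ m⌉₊ := by
    have h9 := (Nat.ceil_lt_add_one (show (0 : ℝ) ≤ (n : ℝ) ^ l by positivity)).le
    have h10 := Nat.le_ceil ((n : ℝ) ^ m)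
    have h11 : ((e + 1 : ℕ) : ℝ) ≤ (⌈(n : ℝ) ^ m⌉₊ : ℝ) := by
      push_cast
      rw [← he] at h9
      linarith
    exact_mod_cast h11
  have h9 : 2 ^ (e + 1) ≤ 2 ^ ⌈(n : ℝ) ^ m⌉₊ := Nat.pow_le_pow_right (by norm_num) h8
  rw [pow_succ] at h9
  omega

theorem eventually_small (l : ℝ) : ∀ᶠ n : ℕ in atTop, n + ⌈(n : ℝ) ^ l⌉₊ < 2 ^ n := by
  set L := ⌈l⌉₊ with hL
  have h1 := (isLittleO_pow_const_const_pow_of_one_lt (R := ℝ) (L + 1) (r := 2) (by norm_num)).def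
    (c := 1 / 4) (by norm_num)
  filter_upwards [h1, eventually_ge_atTop 2] with n h2 h3
  have h4 : (2 : ℝ) ≤ n := by exact_mod_cast h3
  rw [Real.norm_of_nonneg (by positivity), Real.norm_of_nonneg (by positivity)] at h2
  have h5 : (n : ℝ) ^ l ≤ (n : ℝ) ^ (L + 1) := by
    rw [← Real.rpow_natCast]
    refine Real.rpow_le_rpow_of_exponent_le (by linarith) ?_
    have := Nat.le_ceil l
    push_cast
    linarith
  have h6 : (n : ℝ) ≤ (n : ℝ) ^ (L + 1) := by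
    nth_rewrite 1 [← pow_one (n : ℝ)]
    exact pow_le_pow_right₀ (by linarith) (by omega)
  have h7 := (Nat.ceil_lt_add_one (show (0 : ℝ) ≤ (n : ℝ) ^ l by positivity)).le
  have h8 : ((n + ⌈(n : ℝ) ^ l⌉₊ : ℕ) : ℝ) < ((2 ^ n : ℕ) : ℝ) := by
    push_cast
    linarith
  exact_mod_cast h8

/-- The number of bits of advice beaten. -/
noncomputable def ub (a : ℝ) (n : ℕ) : ℕ := if a < 1 then ⌊(n : ℝ) ^ a⌋₊ else n - 1

theorem eventually_ub {a : ℝ} (ha : 0 < a) : ∀ᶠ n : ℕ in atTop, ub a n + 1 ≤ n := by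
  by_cases h : a < 1
  · filter_upwards [eventually_mul_le ha.le h 1 1 (by norm_num)] with n h1
    unfold ub
    rw [if_pos h]
    have h2 := Nat.floor_le (show (0 : ℝ) ≤ (n : ℝ) ^ a by positivity)
    rw [Real.rpow_one] at h1
    have h3 : ((⌊(n : ℝ) ^ a⌋₊ + 1 : ℕ) : ℝ) ≤ (n : ℝ) := by
      push_cast
      linarith
    exact_mod_cast h3
  · filter_upwards [eventually_ge_atTop 1] with n h1
    unfold ub
    rw [if_neg h]
    omega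

end Pool.Agent.LibTA48
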