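import Pool.Agent.LibNexp.Witness

/-!
Nondeterministic time with a real exponent, and amounts of advice.
-/

namespace Pool.Agent.LibTA48

open Pool.Agent.LibNexp

/-- Languages recognised in nondeterministic time `2 ^ O(n ^ l)` with oracle `O`. -/
def NTLang (O : List Bool → Bool) (l : ℝ) : Set Lang :=
  {L | ∃ c : ℕ, NTime O (fun n => 2 ^ (c * ⌈(n : ℝ) ^ l⌉₊ + c)) fun e : Fin 1 → List Bool => e 0 ∈ L}

/-- Advice of length `O(n ^ α)`. -/
def PowAdv (α : ℝ) : Set (ℕ → List Bool) :=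
  {f | ∃ c : ℕ, ∀ n : ℕ, ((f n).length : ℝ) ≤ c * (n : ℝ) ^ α + c}

end Pool.Agent.LibTA48
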