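import Pool.Agent.LibTA48.Num

/-!
The coded facts for a given profile.
-/

namespace Pool.Agent.LibTA48

open Function Filter Set Pool.Agent.LibNexp Pool.Agent.LibSpec4

/-- Exponents of the advice used by the coding. -/
def Jset (κ : ℝ → EReal) : Set ℝ :=
  {β | (β = 0 ∨ β ∈ range (fun q : ℚ => (q : ℝ)) ∨
    β ∈ range (fun q : ℚ => sInf {α : ℝ | α ∈ Ico (0 : ℝ) 1 ∧ κ α < ((q : ℝ) : EReal)})) ∧
    β ∈ Ico (0 : ℝ) 1 ∧ κ β ≠ ⊤}

theorem countable_Jset (κ : ℝ → EReal) : (Jset κ).Countable := by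
  refine ((countable_singleton (0 : ℝ)).union ((countable_range (fun q : ℚ => (q : ℝ))).union
    (countable_range (fun q : ℚ => sInf {α : ℝ | α ∈ Ico (0 : ℝ) 1 ∧ κ α < ((q : ℝ) : EReal)})))).mono
    ?_
  rintro β ⟨h | h | h, -⟩
  · exact Or.inl h
  · exact Or.inr (Or.inl h)
  · exact Or.inr (Or.inr h)

theorem exists_Jset {κ : ℝ → EReal} (hanti : AntitoneOn κ (Ico 0 1)) {α l : ℝ}
    (hα : α ∈ Ico (0 : ℝ) 1) (hl : κ α < (l : EReal)) : ∃ β ∈ Jset κ, β ≤ α ∧ κ β < (l : EReal) := by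
  obtain ⟨q, hq1, hq2⟩ := EReal.lt_iff_exists_rat_btwn.1 hl
  set s := sInf {α : ℝ | α ∈ Ico (0 : ℝ) 1 ∧ κ α < ((q : ℝ) : EReal)} with hs
  have hbdd : BddBelow {α : ℝ | α ∈ Ico (0 : ℝ) 1 ∧ κ α < ((q : ℝ) : EReal)} :=
    ⟨0, fun x hx => hx.1.1⟩
  have hmem : α ∈ {α : ℝ | α ∈ Ico (0 : ℝ) 1 ∧ κ α < ((q : ℝ) : EReal)} := ⟨hα, hq1⟩
  have h1 : s ≤ α := csInf_le hbdd hmem
  rcases h1.lt_or_eq with h2 | h2
  · obtain ⟨β, hβ, h3⟩ := exists_lt_of_csInf_lt ⟨α, hmem⟩ h2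
    obtain ⟨r, hr1, hr2⟩ := exists_rat_btwn h3
    have h0 : (r : ℝ) ∈ Ico (0 : ℝ) 1 := ⟨le_trans hβ.1.1 hr1.le, lt_trans hr2 hα.2⟩
    have h4 : κ r < (l : EReal) := lt_of_le_of_lt (hanti hβ.1 h0 hr1.le) (lt_trans hβ.2 hq2)
    exact ⟨r, ⟨Or.inr (Or.inl ⟨r, rfl⟩), h0, ne_top_of_lt h4⟩, hr2.le, h4⟩
  · exact ⟨α, ⟨Or.inr (Or.inr ⟨q, by rw [← h2]⟩), hα, ne_top_of_lt hl⟩, le_rfl, hl⟩

/-- The facts coded: complements of a program in time `2 ^ (c m + c)` for an exponent of the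
advice, or of a program in time `2 ^ (m ^ c + c)`. -/
abbrev FT (κ : ℝ → EReal) : Type := Prog × ℕ × Option (Jset κ)

instance (κ : ℝ → EReal) : Countable (Jset κ) := (countable_Jset κ).to_subtype

instance (κ : ℝ → EReal) : Nonempty (FT κ) := ⟨(skip, 0, none)⟩

/-- The clock. -/
def clk {κ : ℝ → EReal} (t : FT κ) (m : ℕ) : ℕ :=
  match t.2.2 with
  | none => m ^ t.2.1 + t.2.1
  | some _ => t.2.1 * m + t.2.1

/-- The number of bits of the key. -/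
noncomputable def kf {κ : ℝ → EReal} (t : FT κ) (m : ℕ) : ℕ :=
  match t.2.2 with
  | none => if κ 0 = ⊤ then m ^ t.2.1 + t.2.1 + m else 0
  | some α => if (α : ℝ) = 0 then 0 else (t.2.1 + 1) * ⌈((m + 1 : ℕ) : ℝ) ^ (α : ℝ)⌉₊

/-- The length of the witnesses. -/
noncomputable def wf {κ : ℝ → EReal} (t : FT κ) (m : ℕ) : ℕ :=
  match t.2.2 with
  | none => (m + 2 ^ (m ^ t.2.1 + t.2.1)) + 2 ^ ⌈((m ^ t.2.1 + t.2.1 + m : ℕ) : ℝ) ^ (κ 0).toReal⌉₊
  | some α => (m + 2 ^ (t.2.1 * m + t.2.1)) +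
      2 ^ (⌈((t.2.1 + 1 : ℕ) : ℝ) ^ (κ α).toReal⌉₊ * ⌈((1 * m + 1 : ℕ) : ℝ) ^ (κ α).toReal⌉₊)

/-- The data of the coding. -/
noncomputable def mkD {κ : ℝ → EReal} (en : ℕ → FT κ) : Data where
  prog N := (en N).1
  clock N m := clk (en N) m
  wl N m := wf (en N) m
  kl N m := kf (en N) m
  le_wl N m := by
    obtain ⟨p, c, _ | α⟩ := en N
    · simp only [clk, wf]
      exact Nat.le_add_right _ _
    · simp only [clk, wf]
      exact Nat.le_add_right _ _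

theorem le_of_lev {n m E : ℕ} (h : n + 2 ^ n ≤ m + 2 ^ E) : n ≤ E + m := by
  by_contra hcon
  push Not at hcon
  have : 2 ^ E ≤ 2 ^ n := Nat.pow_le_pow_right (by norm_num) (by omega)
  omega

theorem toReal_coe {κ : ℝ → EReal} (h1 : ∀ α ∈ Ico (0 : ℝ) 1, 1 ≤ κ α) {α : ℝ}
    (hα : α ∈ Ico (0 : ℝ) 1) (hne : κ α ≠ ⊤) : ((κ α).toReal : EReal) = κ α := by
  refine EReal.coe_toReal hne ?_
  intro h
  have := h1 α hα
  rw [h] at this
  exact (not_le.2 (by simpa using EReal.bot_lt_coe (1 : ℝ))) this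

theorem fits {κ : ℝ → EReal} (h1 : ∀ α ∈ Ico (0 : ℝ) 1, 1 ≤ κ α) (en : ℕ → FT κ) {l μ a : ℝ}
    (hl : 1 / 2 ≤ l) (hlμ : l < μ) (ha : 0 < a)
    (hμ : ∀ α ∈ Ico (0 : ℝ) 1, α ≤ a → (μ : EReal) ≤ κ α) :
    ∀ᶠ n : ℕ in atTop, Fits (mkD en) (ub a n) (2 ^ ⌈(n : ℝ) ^ l⌉₊) n := by
  filter_upwards [eventually_ub ha, eventually_gap hl hlμ, eventually_small l,
    eventually_ge_atTop 1] with n g1 g2 g3 g4
  have hn1 : (1 : ℝ) ≤ n := by exact_mod_cast g4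
  have hμ0 : 0 ≤ μ := by linarith
  refine ⟨g1, ?_, ?_⟩
  · rw [← pow_add]
    exact Nat.pow_lt_pow_right (by norm_num) (by omega)
  · intro N m h2 h3
    obtain ⟨p, c, hen⟩ : ∃ p c, (en N).1 = p ∧ (en N).2.1 = c := ⟨_, _, rfl, rfl⟩
    have hinv : ∀ {k : ℝ} {X Y : ℕ}, μ ≤ k → (n : ℝ) ^ k ≤ (X : ℝ) →
        ¬ (Y + 2 ^ X + 1 ≤ 3 * n + 2 + 2 ^ ⌈(n : ℝ) ^ l⌉₊) := by
      intro k X Y hk hX hcon
      have h4 : (n : ℝ) ^ μ ≤ (n : ℝ) ^ k := Real.rpow_le_rpow_of_exponent_le hn1 hk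
      have h5 : ⌈(n : ℝ) ^ μ⌉₊ ≤ X := Nat.ceil_le.2 (le_trans h4 hX)
      have h6 : 2 ^ ⌈(n : ℝ) ^ μ⌉₊ ≤ 2 ^ X := Nat.pow_le_pow_right (by norm_num) h5
      omega
    rcases hopt : (en N).2.2 with _ | α
    · -- the second kind of facts
      have e1 : (mkD en).qlen N m = m + 2 ^ (m ^ c + c) := by
        simp only [Data.qlen, mkD, clk, hopt, hen.2]
      have e2 : (mkD en).wl N m = (m + 2 ^ (m ^ c + c)) +
          2 ^ ⌈((m ^ c + c + m : ℕ) : ℝ) ^ (κ 0).toReal⌉₊ := by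
        simp only [mkD, wf, hopt, hen.2]
      have e3 : (mkD en).kl N m = if κ 0 = ⊤ then m ^ c + c + m else 0 := by
        simp only [mkD, kf, hopt, hen.2]
      rw [e1] at h2
      rw [e2] at h3
      rw [e3]
      have h4 := le_of_lev h2
      by_cases htop : κ 0 = ⊤
      · rw [if_pos htop]
        omega
      · exfalso
        have h0 : (0 : ℝ) ∈ Ico (0 : ℝ) 1 := ⟨le_rfl, by norm_num⟩
        have h5 : μ ≤ (κ 0).toReal := by
          have := hμ 0 h0 ha.le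
          rw [← toReal_coe h1 h0 htop] at this
          exact_mod_cast this
        have h6 : (n : ℝ) ≤ ((m ^ c + c + m : ℕ) : ℝ) := by exact_mod_cast h4
        have h7 : (n : ℝ) ^ (κ 0).toReal ≤ (⌈((m ^ c + c + m : ℕ) : ℝ) ^ (κ 0).toReal⌉₊ : ℝ) :=
          le_trans (Real.rpow_le_rpow (by positivity) h6 (by linarith)) (Nat.le_ceil _)
        have h8 : 1 ≤ 2 ^ (m ^ c + c) := Nat.one_le_two_pow
        exact hinv (Y := m + 2 ^ (m ^ c + c) - 1) h5 h7 (by omega)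
    · -- the first kind of facts
      have e1 : (mkD en).qlen N m = m + 2 ^ (c * m + c) := by
        simp only [Data.qlen, mkD, clk, hopt, hen.2]
      have e2 : (mkD en).wl N m = (m + 2 ^ (c * m + c)) +
          2 ^ (⌈((c + 1 : ℕ) : ℝ) ^ (κ α).toReal⌉₊ * ⌈((1 * m + 1 : ℕ) : ℝ) ^ (κ α).toReal⌉₊) := by
        simp only [mkD, wf, hopt, hen.2]
      have e3 : (mkD en).kl N m = if (α : ℝ) = 0 then 0 else
          (c + 1) * ⌈((m + 1 : ℕ) : ℝ) ^ (α : ℝ)⌉₊ := by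
        simp only [mkD, kf, hopt, hen.2]
      rw [e1] at h2
      rw [e2] at h3
      rw [e3]
      clear e2 e3 hopt
      revert h3
      obtain ⟨α, -, hα, hne⟩ := α
      intro h3
      dsimp only at h3 ⊢
      have h4 := le_of_lev h2
      have h5 : n ≤ (c + 1) * (1 * m + 1) := by nlinarith
      have h6 : (n : ℝ) ≤ ((c + 1 : ℕ) : ℝ) * ((1 * m + 1 : ℕ) : ℝ) := by exact_mod_cast h5
      by_cases haα : α ≤ a
      · exfalso
        have h7 : μ ≤ (κ α).toReal := by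
          have := hμ α hα haα
          rw [← toReal_coe h1 hα hne] at this
          exact_mod_cast this
        have h8 : (n : ℝ) ^ (κ α).toReal ≤
            ((⌈((c + 1 : ℕ) : ℝ) ^ (κ α).toReal⌉₊ * ⌈((1 * m + 1 : ℕ) : ℝ) ^ (κ α).toReal⌉₊ : ℕ) : ℝ) := by
          refine le_trans (Real.rpow_le_rpow (by positivity) h6 (by linarith)) ?_
          rw [Real.mul_rpow (by positivity) (by positivity), Nat.cast_mul]
          exact mul_le_mul (Nat.le_ceil _) (Nat.le_ceil _) (by positivity) (by positivity)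
        have h9 : 1 ≤ 2 ^ (c * m + c) := Nat.one_le_two_pow
        exact hinv (Y := m + 2 ^ (c * m + c) - 1) h7 h8 (by omega)
      · push Not at haα
        have hα0 : α ≠ 0 := by linarith
        rw [if_neg hα0]
        unfold ub
        rw [if_pos (lt_trans haα hα.2)]
        have h7 : ((⌊(n : ℝ) ^ a⌋₊ : ℕ) : ℝ) ≤ (((c + 1) * ⌈((m + 1 : ℕ) : ℝ) ^ α⌉₊ : ℕ) : ℝ) := by
          refine le_trans (Nat.floor_le (by positivity)) ?_
          refine le_trans (Real.rpow_le_rpow_of_exponent_le hn1 haα.le) ?_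
          refine le_trans (Real.rpow_le_rpow (by positivity) h6 (by linarith)) ?_
          rw [Real.mul_rpow (by positivity) (by positivity), Nat.cast_mul, one_mul]
          have h8 : (1 : ℝ) ≤ ((c + 1 : ℕ) : ℝ) := by exact_mod_cast Nat.le_add_left 1 c
          have h9 : ((c + 1 : ℕ) : ℝ) ^ α ≤ ((c + 1 : ℕ) : ℝ) := by
            calc ((c + 1 : ℕ) : ℝ) ^ α ≤ ((c + 1 : ℕ) : ℝ) ^ (1 : ℝ) :=
                  Real.rpow_le_rpow_of_exponent_le h8 hα.2.le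
              _ = ((c + 1 : ℕ) : ℝ) := Real.rpow_one _
          exact mul_le_mul h9 (Nat.le_ceil _) (by positivity) (by positivity)
        exact_mod_cast h7

end Pool.Agent.LibTA48
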