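import Pool.Agent.LibTA48.Pos
import Pool.Agent.LibTA48.Fact
import Pool.Agent.LibTA48.Defs

/-!
The oracle with a given time-advice profile.
-/

namespace Pool.Agent.LibTA48

open Function Filter Set Pool.Agent.LibNexp Pool.Agent.LibSpec4

variable {O : List Bool → Bool}

theorem ntLang_of_tb {l : ℝ} {T : ℕ → ℕ} (hT : TB l T) {L : Lang}
    (h : NTime O T fun e : Fin 1 → List Bool => e 0 ∈ L) : L ∈ NTLang O l := by
  obtain ⟨C, hC⟩ := hT
  exact ⟨C, h.mono hC⟩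

theorem ntLang_mono {l l' : ℝ} (h : l ≤ l') : NTLang O l ⊆ NTLang O l' := by
  rintro L ⟨c, hc⟩
  refine ntLang_of_tb ⟨2 * c, fun n => Nat.pow_le_pow_right (by norm_num) ?_⟩ hc
  have h1 : ⌈(n : ℝ) ^ l⌉₊ ≤ ⌈(n : ℝ) ^ l'⌉₊ + 1 := by
    rcases Nat.eq_zero_or_pos n with rfl | hn
    · refine Nat.ceil_le.2 ?_
      have h2 : ((0 : ℕ) : ℝ) ^ l ≤ 1 := by
        rcases eq_or_ne l 0 with rfl | h0
        · simp
        · rw [Nat.cast_zero, Real.zero_rpow h0]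
          norm_num
      push_cast at h2 ⊢
      have : (0 : ℝ) ≤ (⌈(0 : ℝ) ^ l'⌉₊ : ℝ) := by positivity
      linarith
    · have h2 : (1 : ℝ) ≤ n := by exact_mod_cast hn
      exact le_trans (Nat.ceil_le_ceil (Real.rpow_le_rpow_of_exponent_le h2 h)) (Nat.le_succ _)
  nlinarith [Nat.mul_le_mul_left c h1]

theorem exists_progNE {L : Lang} (hL : L ∈ NELang O) :
    ∃ (p : Prog) (c : ℕ), ∀ z, z ∈ L ↔ Acc O p (2 ^ (c * z.length + c)) z := by
  obtain ⟨c, p, hp⟩ := hL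
  refine ⟨p, c, fun z => ⟨fun hz => ?_, fun hz => ?_⟩⟩
  · obtain ⟨t, σ', ht, h⟩ := (hp fun _ => z).2 hz
    rw [size_one] at ht
    exact ⟨t, σ', ht, h⟩
  · obtain ⟨t, σ', -, h⟩ := hz
    exact (hp fun _ => z).1 _ _ h

theorem exists_progNT {l l' : ℝ} (hl : 0 ≤ l) (hll : l < l') {B : Lang} (hB : B ∈ NTLang O l) :
    ∃ p : Prog, ∀ᶠ n : ℕ in atTop, ∀ x a : List Bool, x.length = n → a.length ≤ n →
      (pair x a ∈ B ↔ Acc O p (2 ^ ⌈(n : ℝ) ^ l'⌉₊) (pair x a)) := by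
  obtain ⟨c, p, hp⟩ := hB
  refine ⟨p, ?_⟩
  filter_upwards [eventually_time hl hll c 3 2] with n hn x a hx ha
  constructor
  · intro hz
    obtain ⟨t, σ', ht, h⟩ := (hp fun _ => pair x a).2 hz
    rw [size_one] at ht
    refine ⟨t, σ', le_trans ht (Nat.pow_le_pow_right (by norm_num) (le_trans ?_ hn)), h⟩
    refine Nat.add_le_add_right (Nat.mul_le_mul_left c (Nat.ceil_le_ceil ?_)) c
    refine Real.rpow_le_rpow (by positivity) ?_ hl
    have : (pair x a).length ≤ 3 * n + 2 := by rw [length_pair, hx]; omega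
    exact_mod_cast this
  · rintro ⟨t, σ', -, h⟩
    exact (hp fun _ => pair x a).1 _ _ h

theorem wf_mono {κ : ℝ → EReal} (h1 : ∀ α ∈ Ico (0 : ℝ) 1, 1 ≤ κ α) (t : FT κ) {m n : ℕ}
    (h : m ≤ n) : wf t m ≤ wf t n := by
  obtain ⟨p, c, _ | α⟩ := t
  · simp only [wf]
    have h2 : m ^ c ≤ n ^ c := Nat.pow_le_pow_left h c
    have h3 : 0 ≤ (κ 0).toReal := by
      by_cases h0 : κ 0 = ⊤
      · rw [h0]; simp
      · have h4 := h1 0 ⟨le_rfl, by norm_num⟩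
        rw [← toReal_coe h1 ⟨le_rfl, by norm_num⟩ h0] at h4
        have h5 : (1 : ℝ) ≤ (κ 0).toReal := by exact_mod_cast h4
        linarith
    refine Nat.add_le_add (Nat.add_le_add h (Nat.pow_le_pow_right (by norm_num) (by omega)))
      (Nat.pow_le_pow_right (by norm_num) (Nat.ceil_le_ceil (Real.rpow_le_rpow (by positivity) ?_ h3)))
    exact_mod_cast (by omega : m ^ c + c + m ≤ n ^ c + c + n)
  · simp only [wf]
    obtain ⟨α, -, hα, hne⟩ := α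
    have h3 : 0 ≤ (κ α).toReal := by
      have h4 := h1 α hα
      rw [← toReal_coe h1 hα hne] at h4
      have h5 : (1 : ℝ) ≤ (κ α).toReal := by exact_mod_cast h4
      linarith
    have h4 : c * m ≤ c * n := Nat.mul_le_mul_left c h
    refine Nat.add_le_add (Nat.add_le_add h (Nat.pow_le_pow_right (by norm_num) (by omega)))
      (Nat.pow_le_pow_right (by norm_num) (Nat.mul_le_mul_left _
        (Nat.ceil_le_ceil (Real.rpow_le_rpow (by positivity) ?_ h3))))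
    exact_mod_cast (by omega : 1 * m + 1 ≤ 1 * n + 1)

theorem one_le_toReal {κ : ℝ → EReal} (h1 : ∀ α ∈ Ico (0 : ℝ) 1, 1 ≤ κ α) {α : ℝ}
    (hα : α ∈ Ico (0 : ℝ) 1) (hne : κ α ≠ ⊤) : 1 ≤ (κ α).toReal := by
  have h4 := h1 α hα
  rw [← toReal_coe h1 hα hne] at h4
  exact_mod_cast h4

theorem code_ntLang {κ : ℝ → EReal} (h1 : ∀ α ∈ Ico (0 : ℝ) 1, 1 ≤ κ α) {en : ℕ → FT κ}
    (hcodes : ∀ s, O (false :: s) = true → IsCode (mkD en) (false :: s)) {N : ℕ} {p : Prog} {c : ℕ}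
    {α : Jset κ} (hN : en N = (p, c, some α)) {l : ℝ} (hl : κ α < (l : EReal)) :
    CodeLang O N ∈ NTLang O l := by
  have hα := α.2.2.1
  have hne := α.2.2.2
  have h2 : 1 ≤ (κ α).toReal := one_le_toReal h1 hα hne
  have h3 : (κ α).toReal ≤ l := by
    have h4 : κ α < (l : EReal) := hl
    rw [← toReal_coe h1 hα hne] at h4
    exact_mod_cast h4.le
  have hl1 : 1 ≤ l := le_trans h2 h3
  refine ntLang_of_tb (T := fun n => wf (en N) n + (2 + ((2 * n + 1) + ((3 * n + 1) + (N + 2 + 1)))))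
    ?_ (ntime_codeLang hcodes N (W := fun n => wf (en N) n) fun m n hmn => wf_mono h1 _ hmn)
  refine TB.add ?_ ((TB.const 2).add ((TB.lin hl1 2 1).add ((TB.lin hl1 3 1).add (TB.const _))))
  rw [hN]
  exact (((TB.lin hl1 1 0).mono fun n => by omega).add (TB.pow_lin hl1 c c)).add
    (TB.rpow (by linarith) h3 _ 1 1)

theorem code_nexp {κ : ℝ → EReal} (h1 : ∀ α ∈ Ico (0 : ℝ) 1, 1 ≤ κ α) {en : ℕ → FT κ}
    (hcodes : ∀ s, O (false :: s) = true → IsCode (mkD en) (false :: s)) {N : ℕ} {p : Prog} {c : ℕ}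
    (hN : en N = (p, c, none)) (h0 : κ 0 < ⊤) :
    NEXP O fun e : Fin 1 → List Bool => pair (e 0) [] ∈ CodeLang O N := by
  have hk := one_le_toReal h1 ⟨le_rfl, by norm_num⟩ h0.ne
  have hW : EP fun n => wf (en N) n := by
    rw [hN]
    have hp : PolyB fun m => m ^ c + c + m := (PolyB.id.comp_pow c).add PolyB.id
    have h2 : EP fun m => (m + 2 ^ (m ^ c + c)) + 2 ^ ((m ^ c + c + m) ^ ⌈(κ 0).toReal⌉₊ + 1) :=
      ((EP.of_poly PolyB.id).add (EP.pow2 (PolyB.id.comp_pow c))).add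
        (EP.pow2 ((hp.pow _).add (PolyB.const 1)))
    refine h2.mono fun m => ?_
    simp only [wf]
    refine Nat.add_le_add_left (Nat.pow_le_pow_right (by norm_num) (Nat.ceil_le.2 ?_)) _
    generalize m ^ c + c + m = X
    rcases Nat.eq_zero_or_pos X with rfl | h3
    · rw [Nat.cast_zero, Real.zero_rpow (by linarith)]
      positivity
    · have h4 : (1 : ℝ) ≤ (X : ℝ) := by exact_mod_cast h3
      have h5 : (X : ℝ) ^ (κ 0).toReal ≤ (X : ℝ) ^ (⌈(κ 0).toReal⌉₊ : ℝ) :=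
        Real.rpow_le_rpow_of_exponent_le h4 (Nat.le_ceil _)
      rw [Real.rpow_natCast] at h5
      push_cast
      linarith
  have h2 := ntime_pairNil (ntime_codeLang hcodes N (W := fun n => wf (en N) n)
    fun m n hmn => wf_mono h1 _ hmn)
  refine nexp_iff.2 ⟨_, ?_, h2⟩
  have h3 : EP fun n => wf (en N) (2 * n + 2) :=
    hW.comp (((PolyB.const 2).mul PolyB.id).add (PolyB.const 2))
  have hlin : ∀ a b : ℕ, EP fun n => a * n + b := fun a b =>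
    EP.of_poly (((PolyB.const a).mul PolyB.id).add (PolyB.const b))
  have hlin2 : ∀ a b : ℕ, EP fun n => a * (2 * n + 2) + b := fun a b =>
    (hlin a b).comp (((PolyB.const 2).mul PolyB.id).add (PolyB.const 2))
  exact ((hlin 2 1).add ((EP.const 2).add (hlin 3 1))).add
    (h3.add ((EP.const 2).add ((hlin2 2 1).add ((hlin2 3 1).add (EP.const _)))))

theorem key_nil {V ν : ℕ → ℕ} {D : Data} {N m : ℕ} (h : D.kl N m = 0) :
    key D V ν O N m = [] := by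
  have := length_key (D := D) (V := V) (ν := ν) (O := O) N m
  rw [h] at this
  exact List.eq_nil_of_length_eq_zero this

/-- Requirements: `l < μ` and `a` such that `μ ≤ κ` up to `a`. -/
def Req (κ : ℝ → EReal) (l μ a : ℝ) : Prop :=
  1 / 2 ≤ l ∧ l < μ ∧ 0 < a ∧ ∀ α ∈ Ico (0 : ℝ) 1, α ≤ a → (μ : EReal) ≤ κ α

theorem exists_adv {κ : ℝ → EReal} (h1 : ∀ α ∈ Ico (0 : ℝ) 1, 1 ≤ κ α) (h2 : AntitoneOn κ (Ico 0 1))
    (h3 : ∀ α ∈ Ico (0 : ℝ) 1, ContinuousWithinAt κ (Ici α) α) {α l : ℝ}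
    (hα : α ∈ Ico (0 : ℝ) 1) (hl : (l : EReal) < κ α) :
    ∃ (l' μ a : ℚ), Req κ l' μ a ∧ max l (1 / 2) < l' ∧ α < a ∧ (a : ℝ) < 1 := by
  have h4 : ((max l (1 / 2) : ℝ) : EReal) < κ α := by
    rcases max_choice l (1 / 2) with h | h
    · rw [h]; exact hl
    · rw [h]
      refine lt_of_lt_of_le ?_ (h1 α hα)
      have : (((1 / 2 : ℝ)) : EReal) < ((1 : ℝ) : EReal) := by
        rw [EReal.coe_lt_coe_iff]; norm_num
      simpa using this
  have h5 : {β | ((max l (1 / 2) : ℝ) : EReal) < κ β} ∈ nhdsWithin α (Ici α) :=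
    (h3 α hα).eventually (lt_mem_nhds h4)
  rw [mem_nhdsGE_iff_exists_Ico_subset] at h5
  obtain ⟨u, hu, h6⟩ := h5
  obtain ⟨a, ha1, ha2⟩ := exists_rat_btwn (show α < min u 1 from lt_min hu hα.2)
  have hau : (a : ℝ) < u := lt_of_lt_of_le ha2 (min_le_left _ _)
  have ha1' : (a : ℝ) < 1 := lt_of_lt_of_le ha2 (min_le_right _ _)
  have hamem : (a : ℝ) ∈ Ico (0 : ℝ) 1 := ⟨le_trans hα.1 ha1.le, ha1'⟩
  have h7 : ((max l (1 / 2) : ℝ) : EReal) < κ a := h6 ⟨ha1.le, hau⟩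
  obtain ⟨μ, hμ1, hμ2⟩ := EReal.lt_iff_exists_rat_btwn.1 h7
  have hμ1' : max l (1 / 2) < (μ : ℝ) := by exact_mod_cast hμ1
  obtain ⟨l', hl1, hl2⟩ := exists_rat_btwn hμ1'
  refine ⟨l', μ, a, ⟨le_trans (le_max_right _ _) hl1.le, hl2, lt_of_le_of_lt hα.1 ha1,
    fun β hβ hβa => le_trans hμ2.le (h2 hβ hamem hβa)⟩, hl1, ha1, ha1'⟩

/-- The main construction. -/
theorem main {κ : ℝ → EReal} (h1 : ∀ α ∈ Ico (0 : ℝ) 1, 1 ≤ κ α) (h2 : AntitoneOn κ (Ico 0 1))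
    (h3 : ∀ α ∈ Ico (0 : ℝ) 1, ContinuousWithinAt κ (Ici α) α) :
    ∃ O : List Bool → Bool,
      (∀ α ∈ Ico (0 : ℝ) 1, ∀ l : ℝ, κ α < l →
        ∀ L ∈ NELang O, Lᶜ ∈ WithAdvice (NTLang O l) (PowAdv α)) ∧
      (∀ α ∈ Ico (0 : ℝ) 1, ∀ l : ℝ, l < κ α →
        (WitLang O)ᶜ ∉ WithAdvice (NTLang O l) (PowAdv α)) ∧
      (∀ l : ℝ, κ 0 < l → ∀ L ∈ NELang O, Lᶜ ∈ NTLang O l) ∧
      (κ 0 < ⊤ → ∀ L ∈ NEXPLang O, Lᶜ ∈ NEXPLang O) ∧
      (∀ l m : ℝ, l < m → (∀ α ∈ Ico (0 : ℝ) 1, (m : EReal) ≤ κ α) →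
        ∀ a : ℕ → ℕ, (∀ᶠ n in atTop, a n + 2 ≤ n) →
          (WitLang O)ᶜ ∉ WithAdvice (NTLang O l) {f | ∀ n, (f n).length ≤ a n}) := by
  classical
  obtain ⟨en, hen⟩ := exists_surjective_nat (FT κ)
  have hιne : Nonempty (Prog × {q : ℚ × ℚ × ℚ // Req κ q.1 q.2.1 q.2.2}) := by
    refine ⟨(skip, ⟨(1 / 2, 3 / 4, 1), by norm_num, by norm_num, by norm_num, fun α hα _ => ?_⟩)⟩
    refine le_trans ?_ (h1 α hα)
    have : ((((3 / 4 : ℚ) : ℝ)) : EReal) ≤ ((1 : ℝ) : EReal) := by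
      rw [EReal.coe_le_coe_iff]; norm_num
    simpa using this
  obtain ⟨V, ν, O, hO, hreq⟩ := engine (ι := Prog × {q : ℚ × ℚ × ℚ // Req κ q.1 q.2.1 q.2.2})
    (mkD en) (fun r => r.1)
    (fun r n => ub (r.2.1.2.2 : ℝ) n) (fun r n => 2 ^ ⌈(n : ℝ) ^ (r.2.1.1 : ℝ)⌉₊)
    (fun r => fits h1 en r.2.2.1 r.2.2.2.1 r.2.2.2.2.1 r.2.2.2.2.2)
  -- the negative part
  have hneg : ∀ (l : ℝ) (l' μ a : ℚ) (f : ℕ → List Bool) (B : Lang), max l (1 / 2) < l' →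
      Req κ l' μ a → (∀ᶠ n in atTop, (f n).length < ub a n) → B ∈ NTLang O l →
      (WitLang O)ᶜ ≠ {x | pair x (f x.length) ∈ B} := by
    intro l l' μ a f B hl hr hf hB heq
    obtain ⟨p, hp⟩ := exists_progNT (le_trans (by norm_num) (le_max_right l (1 / 2))) hl
      (ntLang_mono (le_max_left l (1 / 2)) hB)
    obtain ⟨n, ⟨⟨h4, h5⟩, h6⟩, h7⟩ := (((hreq (p, ⟨(l', μ, a), hr⟩)).and_eventually hp).and_eventually
      hf).and_eventually (eventually_ub hr.2.2.1) |>.exists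
    obtain ⟨x, hx, h8⟩ := h4 (f n) h6
    refine h8 ?_
    rw [← h5 x (f n) hx (by omega)]
    have h9 := Set.ext_iff.1 heq x
    rw [Set.mem_compl_iff, Set.mem_ofPred_eq, hx] at h9
    exact h9
  -- the positive part
  have hpos : ∀ α ∈ Ico (0 : ℝ) 1, ∀ l : ℝ, κ α < l → ∀ L ∈ NELang O, ∃ (N c : ℕ) (β : ℝ), β ≤ α ∧
      0 ≤ β ∧ CodeLang O N ∈ NTLang O l ∧
      (∀ x, x ∈ Lᶜ ↔ pair x (key (mkD en) V ν O N x.length) ∈ CodeLang O N) ∧
      ∀ m, (mkD en).kl N m = if β = 0 then 0 else (c + 1) * ⌈((m + 1 : ℕ) : ℝ) ^ β⌉₊ := by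
    intro α hα l hl L hL
    obtain ⟨β, hβ, hβα, hβl⟩ := exists_Jset h2 hα hl
    obtain ⟨p, c, hp⟩ := exists_progNE hL
    obtain ⟨N, hN⟩ := hen (p, c, some ⟨β, hβ⟩)
    refine ⟨N, c, β, hβα, hβ.2.1.1, code_ntLang h1 hO.codes hN hβl, fun x => ?_, fun m => ?_⟩
    · refine compl_codeLang hO (fun z => ?_) x
      rw [hp]
      simp only [AccN, mkD, clk, hN]
    · simp only [mkD, kf, hN]
  refine ⟨O, ?_, ?_, ?_, ?_, ?_⟩
  · intro α hα l hl L hL
    obtain ⟨N, c, β, hβα, hβ0, h4, h5, h6⟩ := hpos α hα l hl L hL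
    refine ⟨CodeLang O N, h4, fun n => key (mkD en) V ν O N n, ⟨3 * (c + 1), fun n => ?_⟩,
      Set.ext h5⟩
    rw [length_key, h6]
    have h7 : (0 : ℝ) ≤ (n : ℝ) ^ α := by positivity
    split_ifs with h8
    · rw [Nat.cast_zero]; positivity
    · have h9 := rpow_lin_le hβ0 hβα 1 1 n
      have h10 := (Nat.ceil_lt_add_one (show (0 : ℝ) ≤ ((n + 1 : ℕ) : ℝ) ^ β by positivity)).le
      have h11 : ((1 + 1 : ℕ) : ℝ) ^ β ≤ 2 := by
        calc ((1 + 1 : ℕ) : ℝ) ^ β ≤ ((1 + 1 : ℕ) : ℝ) ^ (1 : ℝ) :=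
              Real.rpow_le_rpow_of_exponent_le (by norm_num) (le_trans hβα hα.2.le)
          _ = 2 := by rw [Real.rpow_one]; norm_num
      rw [one_mul] at h9
      have h12 : ((n + 1 : ℕ) : ℝ) ^ β ≤ 2 * ((n : ℝ) ^ α + 1) :=
        le_trans h9 (mul_le_mul_of_nonneg_right h11 (by positivity))
      rw [Nat.cast_mul, Nat.cast_mul]
      have h13 : (0 : ℝ) ≤ ((c + 1 : ℕ) : ℝ) := by positivity
      have h14 : (⌈((n + 1 : ℕ) : ℝ) ^ β⌉₊ : ℝ) ≤ 3 * (n : ℝ) ^ α + 3 := by linarith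
      have h15 := mul_le_mul_of_nonneg_left h14 h13
      push_cast at h15 ⊢
      linarith
  · rintro α hα l hl ⟨B, hB, f, ⟨C, hf⟩, heq⟩
    obtain ⟨l', μ, a, hr, h4, h5, h6⟩ := exists_adv h1 h2 h3 hα hl
    refine hneg l l' μ a f B h4 hr ?_ hB heq
    filter_upwards [eventually_mul_le hα.1 h5 (C : ℝ) (C + 1 : ℝ) (by positivity)] with n h7
    unfold ub
    rw [if_pos h6]
    have h8 := hf n
    have h9 := Nat.lt_floor_add_one ((n : ℝ) ^ (a : ℝ))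
    have h10 : ((f n).length : ℝ) < (⌊(n : ℝ) ^ (a : ℝ)⌋₊ : ℝ) := by linarith
    exact_mod_cast h10
  · intro l hl L hL
    obtain ⟨N, c, β, hβα, hβ0, h4, h5, h6⟩ := hpos 0 ⟨le_rfl, by norm_num⟩ l hl L hL
    have h7 : β = 0 := le_antisymm hβα hβ0
    subst h7
    have h8 : ∀ m, key (mkD en) V ν O N m = [] := fun m => key_nil (by rw [h6, if_pos rfl])
    obtain ⟨C, hC⟩ := h4
    have hl1 : 1 ≤ l := by
      have := lt_of_le_of_lt (h1 0 ⟨le_rfl, by norm_num⟩) hl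
      exact_mod_cast this.le
    have h9 := ntime_pairNil hC
    have h10 : Lᶜ = {x | pair x [] ∈ CodeLang O N} := by
      ext x
      rw [h5 x, h8]
      rfl
    rw [h10]
    refine ntLang_of_tb ?_ h9
    exact ((TB.lin hl1 2 1).add ((TB.const 2).add (TB.lin hl1 3 1))).add
      (TB.comp_lin (by linarith) (T := fun n => 2 ^ (C * ⌈(n : ℝ) ^ l⌉₊ + C)) ⟨C, fun _ => le_rfl⟩ 2 2)
  · intro h0 L hL
    obtain ⟨p, c, hp⟩ := exists_prog hL
    obtain ⟨N, hN⟩ := hen (p, c, none)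
    have h8 : ∀ m, key (mkD en) V ν O N m = [] := fun m => key_nil (by
      simp only [mkD, kf, hN]
      rw [if_neg h0.ne])
    have h10 : ∀ x, x ∈ Lᶜ ↔ pair x [] ∈ CodeLang O N := by
      intro x
      rw [compl_codeLang hO (L := L) (N := N) (fun z => ?_) x, h8]
      rw [hp]
      simp only [AccN, mkD, clk, hN]
    show NEXP O _
    refine (code_nexp h1 hO.codes hN h0).congr fun e => ?_
    exact (h10 (e 0)).symm
  · rintro l m hlm hm a ha ⟨B, hB, f, hf, heq⟩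
    have h4 : max l (1 / 2) < max m 1 :=
      max_lt (lt_of_lt_of_le hlm (le_max_left _ _)) (lt_of_lt_of_le (by norm_num) (le_max_right _ _))
    obtain ⟨μ, hμ1, hμ2⟩ := exists_rat_btwn h4
    obtain ⟨l', hl1, hl2⟩ := exists_rat_btwn hμ1
    refine hneg l l' μ 1 f B hl1 ⟨le_trans (le_max_right _ _) hl1.le, hl2, by norm_num,
      fun α hα _ => ?_⟩ ?_ hB heq
    · have h5 : (((max m 1 : ℝ)) : EReal) ≤ κ α := by
        rcases max_choice m 1 with h | h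
        · rw [h]; exact hm α hα
        · rw [h]
          simpa using h1 α hα
      exact le_trans (by exact_mod_cast hμ2.le) h5
    · filter_upwards [ha] with n hn
      have := hf n
      unfold ub
      rw [if_neg (by norm_num)]
      omega

end Pool.Agent.LibTA48
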