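import Pool.Agent.LibSpec4.Spectrum

/-!
Oracles which code the complements of all languages in nondeterministic time `2 ^ O(n)`: every
language has a code with a prescribed length of the witnesses and a prescribed number of bits of
the key.
-/

namespace Pool.Agent.LibTA48

open Function Pool.Agent.LibNexp Pool.Agent.LibSpec4

/-- The code string with index `N`, input `x`, key `r` and witness `w`. -/
def cd (N : ℕ) (x r w : List Bool) : List Bool := ask N (pair x r) w

theorem cd_injective {N N' : ℕ} {x x' r r' w w' : List Bool}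
    (h : cd N x r w = cd N' x' r' w') : N = N' ∧ x = x' ∧ r = r' ∧ w = w' := by
  obtain ⟨h1, h2, h3⟩ := ask_injective h
  obtain ⟨h4, h5⟩ := pair_injective h2
  exact ⟨h1, h4, h5, h3⟩

theorem length_cd (N : ℕ) (x r w : List Bool) :
    (cd N x r w).length = N + 4 * x.length + 2 * r.length + w.length + 8 := by
  unfold cd
  rw [length_ask, length_pair]
  ring

theorem length_lt_cd (N : ℕ) (x r w : List Bool) : w.length < (cd N x r w).length := by
  rw [length_cd]
  omega

/-- The data of the coding: for every index a program, its clock, the length of the witnesses and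
the number of bits of the key, as functions of the length of the input. -/
structure Data where
  prog : ℕ → Prog
  clock : ℕ → ℕ → ℕ
  wl : ℕ → ℕ → ℕ
  kl : ℕ → ℕ → ℕ
  le_wl : ∀ N m, m + 2 ^ clock N m ≤ wl N m

/-- A bound for the length of the strings asked by program number `N` on inputs of
length `m`. -/
def Data.qlen (D : Data) (N m : ℕ) : ℕ := m + 2 ^ D.clock N m

theorem Data.qlen_le_wl (D : Data) (N m : ℕ) : D.qlen N m ≤ D.wl N m := D.le_wl N m

/-- Program number `N` accepts `x` in its time. -/
def AccN (D : Data) (O : List Bool → Bool) (N : ℕ) (x : List Bool) : Prop :=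
  Acc O (D.prog N) (2 ^ D.clock N x.length) x

/-- The key, as a number, with `s` bits, used for the computations asking strings of length at
most `M`. -/
noncomputable def tag (V ν : ℕ → ℕ) (O : List Bool → Bool) (M s : ℕ) : ℕ := by
  classical
  exact ∑ k ∈ Finset.range (M + 1), if lev ν k ≤ M ∧ M < lev ν (k + 1) ∧ V k ≤ 2 ^ s then
    census (V k) O (ν k) else 0

/-- The key used at index `N` for inputs of length `m`. -/
noncomputable def key (D : Data) (V ν : ℕ → ℕ) (O : List Bool → Bool) (N m : ℕ) : List Bool :=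
  dg (D.kl N m) (tag V ν O (D.qlen N m) (D.kl N m))

variable {D : Data} {V ν : ℕ → ℕ} {O O' : List Bool → Bool}

theorem tag_agree (hν : ∀ k, 1 ≤ ν k) {M s : ℕ} (h : ∀ u, u.length ≤ M → O u = O' u) :
    tag V ν O M s = tag V ν O' M s := by
  classical
  unfold tag
  refine Finset.sum_congr rfl fun k _ => ?_
  split_ifs with h1
  · exact census_agree (hν k) fun s hs => h s (le_trans hs h1.1)
  · rfl

theorem accN_agree {N : ℕ} {x : List Bool} (h : ∀ s, s.length ≤ D.qlen N x.length → O s = O' s) :
    AccN D O N x ↔ AccN D O' N x :=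
  ⟨fun h1 => acc_agree h h1, fun h1 => acc_agree (fun s hs => (h s hs).symm) h1⟩

theorem key_agree (hν : ∀ k, 1 ≤ ν k) {N m : ℕ} (h : ∀ u, u.length ≤ D.qlen N m → O u = O' u) :
    key D V ν O N m = key D V ν O' N m := by
  unfold key
  rw [tag_agree hν h]

theorem tag_eq (hmono : ∀ k, lev ν k < lev ν (k + 1)) {k M s : ℕ} (h1 : lev ν k ≤ M)
    (h2 : M < lev ν (k + 1)) (hs : V k ≤ 2 ^ s) : tag V ν O M s = census (V k) O (ν k) := by
  classical
  unfold tag
  rw [Finset.sum_eq_single k]
  · rw [if_pos ⟨h1, h2, hs⟩]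
  · intro k' _ hne
    rw [if_neg]
    rintro ⟨h3, h4, -⟩
    rcases Nat.lt_or_ge k k' with h | h
    · have := lev_mono hmono (show k + 1 ≤ k' by omega)
      omega
    · have := lev_mono hmono (show k' + 1 ≤ k by omega)
      omega
  · intro h3
    rw [Finset.mem_range] at h3
    have := le_lev hmono k
    omega

/-- Code strings of the right length. -/
def IsCode (D : Data) (s : List Bool) : Prop :=
  ∃ N x r w, s = cd N x r w ∧ w.length = D.wl N x.length ∧ r.length = D.kl N x.length

/-- The intended value on code strings. -/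
def Val (D : Data) (V ν : ℕ → ℕ) (O : List Bool → Bool) (s : List Bool) : Prop :=
  ∃ N x r w, s = cd N x r w ∧ r = key D V ν O N x.length ∧ ¬ AccN D O N x

theorem val_cd {N : ℕ} {x r w : List Bool} (h : Val D V ν O (cd N x r w)) :
    r = key D V ν O N x.length ∧ ¬ AccN D O N x := by
  obtain ⟨N', x', r', w', h1, h2, h3⟩ := h
  obtain ⟨rfl, rfl, rfl, rfl⟩ := cd_injective h1
  exact ⟨h2, h3⟩

theorem val_agree (hν : ∀ k, 1 ≤ ν k) {s : List Bool} (hs : IsCode D s)
    (h : ∀ u : List Bool, u.length < s.length → O u = O' u) :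
    Val D V ν O s → Val D V ν O' s := by
  obtain ⟨N, x, r, w, rfl, h1, -⟩ := hs
  intro hv
  obtain ⟨h2, h3⟩ := val_cd hv
  have hag : ∀ u : List Bool, u.length ≤ D.qlen N x.length → O u = O' u := by
    intro u hu
    refine h u ?_
    have := length_lt_cd N x r w
    have := D.qlen_le_wl N x.length
    omega
  exact ⟨N, x, r, w, rfl, by rw [h2, key_agree hν hag], by rwa [accN_agree hag] at h3⟩

/-- Completion of an oracle by coding. -/
theorem comp (hν : ∀ k, 1 ≤ ν k) (P : List Bool → Bool) (F : Finset (List Bool)) (ℓ : ℕ) :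
    ∃ O : List Bool → Bool, (∀ s, (s.length < ℓ ∨ s ∈ F ∨ ¬ IsCode D s) → O s = P s) ∧
      (∀ s, ℓ ≤ s.length → s ∉ F → IsCode D s → (O s = true ↔ Val D V ν O s)) := by
  classical
  obtain ⟨O, hO⟩ := exists_fix (fun O s => if s.length < ℓ ∨ s ∈ F ∨ ¬ IsCode D s then P s
    else decide (Val D V ν O s)) (by
      intro O O' s h
      by_cases h1 : s.length < ℓ ∨ s ∈ F ∨ ¬ IsCode D s
      · simp only [if_pos h1]
      · simp only [if_neg h1]
        push Not at h1
        exact decide_eq_decide.2 ⟨val_agree hν h1.2.2 h,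
          val_agree hν h1.2.2 fun u hu => (h u hu).symm⟩)
  refine ⟨O, fun s hs => ?_, fun s h1 h2 h3 => ?_⟩
  · have := congrFun hO s
    simp only [if_pos hs] at this
    exact this.symm
  · have h4 : ¬ (s.length < ℓ ∨ s ∈ F ∨ ¬ IsCode D s) := by
      rintro (h | h | h)
      · omega
      · exact h2 h
      · exact h h3
    have := congrFun hO s
    simp only [if_neg h4] at this
    rw [← this, decide_eq_true_iff]

/-- Oracles coding all complements correctly. -/
structure Good (D : Data) (V ν : ℕ → ℕ) (O : List Bool → Bool) : Prop where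
  sound : ∀ N x w, w.length = D.wl N x.length →
    O (cd N x (key D V ν O N x.length) w) = true → ¬ AccN D O N x
  complete : ∀ N x, ¬ AccN D O N x → ∃ w : List Bool, w.length = D.wl N x.length ∧
    O (cd N x (key D V ν O N x.length) w) = true
  codes : ∀ s, O (false :: s) = true → IsCode D (false :: s)

theorem length_key (N m : ℕ) : (key D V ν O N m).length = D.kl N m := length_dg _ _

theorem exists_notMem {N : ℕ} {x r : List Bool} {m : ℕ} {F : Finset (List Bool)}
    (hF : F.card < 2 ^ m) : ∃ w : List Bool, w.length = m ∧ cd N x r w ∉ F := by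
  classical
  by_contra hcon
  push Not at hcon
  have hc := Finset.card_le_card_of_injOn (s := strs m) (t := F) (fun w => cd N x r w)
    (fun w hw => hcon w (mem_strs.1 hw))
    (fun w _ w' _ h => (cd_injective h).2.2.2)
  rw [card_strs] at hc
  omega

theorem good_comp (hν : ∀ k, 1 ≤ ν k) {O₁ P : List Bool → Bool} {F : Finset (List Bool)} {ℓ : ℕ}
    (hg : Good D V ν O₁)
    (h1 : ∀ s, (s.length < ℓ ∨ s ∈ F ∨ ¬ IsCode D s) → O s = P s)
    (h2 : ∀ s, ℓ ≤ s.length → s ∉ F → IsCode D s → (O s = true ↔ Val D V ν O s))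
    (hP1 : ∀ s, s.length < ℓ → P s = O₁ s) (hP2 : ∀ s ∈ F, P s = O₁ s)
    (hP3 : ∀ s, P (false :: s) = true → IsCode D (false :: s))
    (hF : ∀ N x w, cd N x (key D V ν O N x.length) w ∈ F → w.length = D.wl N x.length →
      ℓ ≤ D.qlen N x.length → P (cd N x (key D V ν O N x.length) w) = false)
    (hcard : F.card < 2 ^ ℓ) : Good D V ν O := by
  have hlow : ∀ s, s.length < ℓ → O s = O₁ s := fun s hs => by rw [h1 s (Or.inl hs), hP1 s hs]
  have hlow' : ∀ {M : ℕ}, M < ℓ → ∀ s : List Bool, s.length ≤ M → O s = O₁ s :=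
    fun hM s hs => hlow s (by omega)
  refine ⟨?_, ?_, ?_⟩
  · intro N x w hw hO
    have hqw := D.qlen_le_wl N x.length
    set M := D.qlen N x.length with hM
    by_cases hMl : M < ℓ
    · by_cases h3 : (cd N x (key D V ν O N x.length) w).length < ℓ ∨
          cd N x (key D V ν O N x.length) w ∈ F
      · have h4 : O₁ (cd N x (key D V ν O N x.length) w) = true := by
          rcases h3 with h3 | h3
          · rw [← hlow _ h3]; exact hO
          · rw [← hP2 _ h3, ← h1 _ (Or.inr (Or.inl h3))]; exact hO
        rw [key_agree hν (hlow' hMl)] at h4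
        rw [accN_agree (hlow' hMl)]
        exact hg.sound N x w hw h4
      · push Not at h3
        exact (val_cd ((h2 _ h3.1 h3.2 ⟨N, x, _, w, rfl, hw, length_key _ _⟩).1 hO)).2
    · push Not at hMl
      have h3 : ℓ ≤ (cd N x (key D V ν O N x.length) w).length := by
        have := length_lt_cd N x (key D V ν O N x.length) w
        omega
      by_cases h4 : cd N x (key D V ν O N x.length) w ∈ F
      · rw [h1 _ (Or.inr (Or.inl h4)), hF N x w h4 hw hMl] at hO
        exact absurd hO (by simp)
      · exact (val_cd ((h2 _ h3 h4 ⟨N, x, _, w, rfl, hw, length_key _ _⟩).1 hO)).2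
  · intro N x hN
    have hqw := D.qlen_le_wl N x.length
    set M := D.qlen N x.length with hM
    by_cases hMl : M < ℓ
    · rw [accN_agree (hlow' hMl)] at hN
      obtain ⟨w, hw, hO⟩ := hg.complete N x hN
      refine ⟨w, hw, ?_⟩
      rw [key_agree hν (hlow' hMl)]
      by_cases h3 : (cd N x (key D V ν O₁ N x.length) w).length < ℓ
      · rw [hlow _ h3]; exact hO
      · by_cases h4 : cd N x (key D V ν O₁ N x.length) w ∈ F
        · rw [h1 _ (Or.inr (Or.inl h4)), hP2 _ h4]; exact hO
        · rw [h2 _ (by omega) h4 ⟨N, x, _, w, rfl, hw, length_key _ _⟩]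
          exact ⟨N, x, _, w, rfl, (key_agree hν (hlow' hMl)).symm,
            by rw [accN_agree (hlow' hMl)]; exact hN⟩
    · push Not at hMl
      obtain ⟨w, hw, h4⟩ := exists_notMem (N := N) (x := x) (r := key D V ν O N x.length)
        (m := D.wl N x.length)
        (F := F) (lt_of_lt_of_le hcard (Nat.pow_le_pow_right (by norm_num) (le_trans hMl hqw)))
      refine ⟨w, hw, ?_⟩
      have h3 : ℓ ≤ (cd N x (key D V ν O N x.length) w).length := by
        have := length_lt_cd N x (key D V ν O N x.length) w
        omega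
      rw [h2 _ h3 h4 ⟨N, x, _, w, rfl, hw, length_key _ _⟩]
      exact ⟨N, x, _, w, rfl, rfl, hN⟩
  · intro s hs
    by_contra hcode
    rw [h1 _ (Or.inr (Or.inr hcode))] at hs
    exact hcode (hP3 s hs)

theorem not_isCode_true (s : List Bool) : ¬ IsCode D (true :: s) := by
  rintro ⟨N, x, r, w, h, -⟩
  simp [cd, ask] at h

/-- One stage, by induction on the number of witnesses. -/
theorem chain (hν : ∀ k, 1 ≤ ν k) (hV : ∀ k, V k ≤ 2 ^ (ν k - 1))
    (hmono : ∀ k, lev ν k < lev ν (k + 1)) {k : ℕ} {p : Prog}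
    {T S : ℕ} {A : Finset (List Bool)} (hT : V k * T < 2 ^ (2 ^ ν k))
    (hS : S < lev ν (k + 1))
    (hAS : ∀ a ∈ A, ∀ x : List Bool, x.length = ν k → (pair x a).length + T ≤ S)
    (hvis : ∀ N m, lev ν k ≤ D.qlen N m → D.wl N m ≤ S → V k ≤ 2 ^ D.kl N m)
    {O₀ : List Bool → Bool} (hgood : Good D V ν O₀)
    (hcon : ∀ O, Good D V ν O → (∀ s, s.length < lev ν k → O s = O₀ s) →
      ∃ a ∈ A, ¬ Wrong O p T (ν k) a) (j : ℕ) (hj : j ≤ V k - 1) :
    ∃ (O : List Bool → Bool) (Q B : Finset (List Bool)),
      (∀ s, s.length < lev ν k → O s = O₀ s) ∧ Good D V ν O ∧ Q.card ≤ j * T ∧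
      (∀ s ∈ Q, s.length ≤ S) ∧ B ⊆ A ∧ B.card = j ∧
      (∀ i, i < V k - 1 → (xs (ν k) i ∈ WitLang O ↔ i < j)) ∧
      (∀ N x w i, w.length = D.wl N x.length → lev ν k ≤ D.qlen N x.length →
        D.wl N x.length ≤ S → j < i → i ≤ V k - 1 →
        O (cd N x (dg (D.kl N x.length) i) w) = false) ∧
      (∀ O' : List Bool → Bool, (∀ s ∈ Q, O' s = O s) → (∀ i, i < j → xs (ν k) i ∈ WitLang O') →
        ∀ a ∈ B, Wrong O' p T (ν k) a) := by
  classical
  have hlen : ∀ {i : ℕ}, (xs (ν k) i).length = ν k := fun {i} => length_xs (hν k)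
  have hcand : ∀ {i : ℕ}, i < V k - 1 → i < 2 ^ (ν k - 1) := fun {i} hi => by
    have := hV k
    omega
  have hqS : ∀ {N m : ℕ}, D.wl N m ≤ S → D.qlen N m < lev ν (k + 1) := fun {N m} h => by
    have := D.qlen_le_wl N m
    omega
  induction j with
  | zero =>
    set P : List Bool → Bool := fun s => if s.length < lev ν k then O₀ s else false with hP
    obtain ⟨O, h1, h2⟩ := comp (D := D) (V := V) hν P ∅ (lev ν k)
    have hP1 : ∀ s, s.length < lev ν k → P s = O₀ s := fun s hs => by simp only [hP, if_pos hs]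
    have hP0 : ∀ s, lev ν k ≤ s.length → P s = false := fun s hs => by
      simp only [hP, if_neg (not_lt.2 hs)]
    have hwit : ∀ i, i < V k - 1 → (xs (ν k) i ∈ WitLang O ↔ i < 0) := by
      intro i hi
      constructor
      · rintro ⟨w, hw, h⟩
        exfalso
        obtain ⟨l, hl⟩ := xs_append (ν k) i w
        rw [h1 _ (Or.inr (Or.inr (by rw [hl]; exact not_isCode_true l))),
          hP0 _ (by rw [List.length_append, hw, hlen]; exact le_rfl)] at h
        exact absurd h (by simp)
      · intro h; omega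
    refine ⟨O, ∅, ∅, fun s hs => by rw [h1 s (Or.inl hs), hP1 s hs], ?_, by simp, by simp, by simp,
      by simp, hwit, ?_, by simp⟩
    · refine good_comp hν hgood h1 h2 hP1 (by simp) (fun s hs => ?_) (by simp) (by simp)
      by_cases h3 : (false :: s).length < lev ν k
      · rw [hP1 _ h3] at hs; exact hgood.codes s hs
      · rw [hP0 _ (not_lt.1 h3)] at hs; exact absurd hs (by simp)
    · intro N x w i hw h3 h4 h5 h6
      by_contra hne
      rw [Bool.not_eq_false] at hne
      have h7 := (val_cd ((h2 _ (by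
        have := length_lt_cd N x (dg (D.kl N x.length) i) w
        have := D.qlen_le_wl N x.length
        omega) (by simp)
        ⟨N, x, _, w, rfl, hw, length_dg _ _⟩).1 hne)).1
      have hVs := hvis N x.length h3 h4
      unfold key at h7
      rw [tag_eq hmono h3 (hqS h4) hVs, census_eq hj hwit] at h7
      have := dg_injective (by omega) (by omega) h7
      omega
  | succ j ih =>
    obtain ⟨O, Q, B, h1, h2, h3, h4, h5, h6, h7, h8, h9⟩ := ih (by omega)
    obtain ⟨a, haA, hwa⟩ := hcon O h2 h1
    have haB : a ∉ B := fun h => hwa (h9 O (fun _ _ => rfl) (fun i hi => (h7 i (by omega)).2 hi) a h)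
    set x := xs (ν k) j with hx
    have hxn : x.length = ν k := hlen
    have hxW : x ∉ WitLang O := fun h => by have := (h7 j (by omega)).1 h; omega
    have hacc : Acc O p T (pair x a) := by
      by_contra hna
      exact hwa ⟨x, hxn, fun h => hna (h.1 hxW)⟩
    obtain ⟨Q', hQ', hQS, hQ'2⟩ := acc_use' hacc
    set F := Q ∪ Q' with hFdef
    have hFcard : F.card ≤ (j + 1) * T := by
      refine le_trans (Finset.card_union_le _ _) ?_
      rw [Nat.succ_mul]
      omega
    have hFcard2 : F.card < 2 ^ (2 ^ ν k) := by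
      have : (j + 1) * T ≤ V k * T := Nat.mul_le_mul_right _ (by omega)
      omega
    have hFS : ∀ s ∈ F, s.length ≤ S := by
      intro s hs
      rcases Finset.mem_union.1 hs with hs | hs
      · exact h4 s hs
      · exact le_trans (hQS s hs) (hAS a haA x hxn)
    obtain ⟨w, hw, hwF⟩ : ∃ w ∈ strs (2 ^ ν k), x ++ w ∉ F := by
      by_contra hcon2
      push Not at hcon2
      have hc := Finset.card_le_card_of_injOn (fun w => x ++ w) hcon2
        (fun w _ w' _ h => List.append_cancel_left h)
      rw [card_strs] at hc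
      omega
    have hwn := mem_strs.1 hw
    obtain ⟨l, hl⟩ := xs_append (ν k) j w
    rw [← hx] at hl
    have hlev : (x ++ w).length = lev ν k := by rw [List.length_append, hxn, hwn]; rfl
    set P : List Bool → Bool := update O (x ++ w) true with hP
    have hPne : ∀ s, s ≠ x ++ w → P s = O s := fun s hs => update_of_ne hs _ _
    obtain ⟨O₂, g1, g2⟩ := comp (D := D) (V := V) hν P F (lev ν k)
    have hP1 : ∀ s, s.length < lev ν k → P s = O s := fun s hs => hPne s (by
      rintro rfl; omega)
    have hP2 : ∀ s ∈ F, P s = O s := fun s hs => hPne s (by rintro rfl; exact hwF hs)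
    have hO2F : ∀ s ∈ F, O₂ s = O s := fun s hs => by rw [g1 s (Or.inr (Or.inl hs)), hP2 s hs]
    have hwit : ∀ i, i < V k - 1 → (xs (ν k) i ∈ WitLang O₂ ↔ i < j + 1) := by
      intro i hi
      have key : ∀ v : List Bool, O₂ (xs (ν k) i ++ v) = P (xs (ν k) i ++ v) := by
        intro v
        obtain ⟨l', hl'⟩ := xs_append (ν k) i v
        exact g1 _ (Or.inr (Or.inr (by rw [hl']; exact not_isCode_true l')))
      constructor
      · rintro ⟨v, hv, h⟩
        rw [key] at h
        by_cases he : xs (ν k) i ++ v = x ++ w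
        · have : xs (ν k) i = xs (ν k) j := (List.append_inj he (by rw [hlen, hxn])).1
          have := xs_injective (hcand hi) (hcand (by omega)) this
          omega
        · rw [hPne _ he] at h
          have := (h7 i hi).1 ⟨v, hv, h⟩
          omega
      · intro h
        rcases Nat.lt_or_ge i j with h10 | h10
        · obtain ⟨v, hv, h11⟩ := (h7 i hi).2 h10
          refine ⟨v, hv, ?_⟩
          rw [key]
          by_cases he : xs (ν k) i ++ v = x ++ w
          · rw [he, hP, update_self]
          · rw [hPne _ he, h11]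
        · have : i = j := by omega
          subst this
          exact ⟨w, by rw [hwn, hlen], by rw [key, hP, ← hx, update_self]⟩
    have hcensus := census_eq (V := V k) (j := j + 1) (by omega) hwit
    have hkey : ∀ {N m : ℕ}, lev ν k ≤ D.qlen N m → D.wl N m ≤ S →
        key D V ν O₂ N m = dg (D.kl N m) (j + 1) := fun {N m} ha hb => by
      unfold key
      rw [tag_eq hmono ha (hqS hb) (hvis N m ha hb), hcensus]
    have hwS : ∀ {N : ℕ} {y r v : List Bool}, cd N y r v ∈ F → v.length = D.wl N y.length →
        D.wl N y.length ≤ S := fun {N y r v} hm hv => by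
      have := hFS _ hm
      have := length_lt_cd N y r v
      omega
    have hgood2 : Good D V ν O₂ := by
      refine good_comp hν h2 g1 g2 hP1 hP2 (fun s hs => ?_) ?_ ?_
      · rw [hPne _ (by rw [hl]; simp)] at hs
        exact h2.codes s hs
      · intro N y v hmem hv hq
        have h10 := hwS hmem hv
        rw [hP2 _ hmem]
        rw [hkey hq h10]
        exact h8 N y v (j + 1) hv hq h10 (by omega) (by omega)
      · have : 2 ^ (2 ^ ν k) ≤ 2 ^ lev ν k := Nat.pow_le_pow_right (by norm_num)
          (Nat.le_add_left _ _)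
        omega
    refine ⟨O₂, F, insert a B, fun s hs => ?_, hgood2, hFcard, hFS, Finset.insert_subset haA h5,
      by rw [Finset.card_insert_of_notMem haB, h6], hwit, ?_, ?_⟩
    · rw [g1 s (Or.inl hs), hP1 s hs, h1 s hs]
    · intro N y v i hv h10 h11 h12 h13
      by_cases hmem : cd N y (dg (D.kl N y.length) i) v ∈ F
      · rw [hO2F _ hmem]
        exact h8 N y v i hv h10 h11 (by omega) h13
      · by_contra hne
        rw [Bool.not_eq_false] at hne
        have h14 := (val_cd ((g2 _ (by
          have := length_lt_cd N y (dg (D.kl N y.length) i) v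
          have := D.qlen_le_wl N y.length
          omega) hmem
          ⟨N, y, _, v, rfl, hv, length_dg _ _⟩).1 hne)).1
        rw [hkey h10 h11] at h14
        have hVs := hvis N y.length h10 h11
        have := dg_injective (by omega) (by omega) h14
        omega
    · intro O' hO' hX' b hb
      have hag : ∀ s ∈ F, O' s = O s := fun s hs => by rw [hO' s hs, hO2F s hs]
      rw [Finset.mem_insert] at hb
      rcases hb with rfl | hb
      · refine ⟨x, hxn, fun h => ?_⟩
        have h10 : Acc O' p T (pair x b) :=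
          hQ'2 O' fun s hs => hag s (Finset.mem_union_right _ hs)
        exact h.2 h10 (hX' j (by omega))
      · exact h9 O' (fun s hs => hag s (Finset.mem_union_left _ hs))
          (fun i hi => hX' i (by omega)) b hb

/-- One stage. -/
theorem stage (hν : ∀ k, 1 ≤ ν k) (hV : ∀ k, V k ≤ 2 ^ (ν k - 1))
    (hmono : ∀ k, lev ν k < lev ν (k + 1)) {k : ℕ} {p : Prog}
    {T S : ℕ} {A : Finset (List Bool)} (hT : V k * T < 2 ^ (2 ^ ν k))
    (hS : S < lev ν (k + 1))
    (hAS : ∀ a ∈ A, ∀ x : List Bool, x.length = ν k → (pair x a).length + T ≤ S)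
    (hvis : ∀ N m, lev ν k ≤ D.qlen N m → D.wl N m ≤ S → V k ≤ 2 ^ D.kl N m)
    (hA : A.card < V k) {O₀ : List Bool → Bool} (hgood : Good D V ν O₀) :
    ∃ O, Good D V ν O ∧ (∀ s, s.length < lev ν k → O s = O₀ s) ∧
      ∀ a ∈ A, Wrong O p T (ν k) a := by
  classical
  by_contra hcon
  push Not at hcon
  obtain ⟨O, Q, B, h1, h2, h3, h4, h5, h6, h7, h8, h9⟩ :=
    chain hν hV hmono hT hS hAS hvis hgood hcon (V k - 1) le_rfl
  have hB : B = A := Finset.eq_of_subset_of_card_le h5 (by omega)
  obtain ⟨a, ha, hwa⟩ := hcon O h2 h1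
  exact hwa (h9 O (fun _ _ => rfl) (fun i hi => (h7 i hi).2 hi) a (by rw [hB]; exact ha))

end Pool.Agent.LibTA48
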