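import Pool.Agent.LibTA48.Coding

/-!
The limit of the stages.
-/

namespace Pool.Agent.LibTA48

open Function Filter Pool.Agent.LibNexp Pool.Agent.LibSpec4

theorem exists_good (D : Data) {V ν : ℕ → ℕ} (hν : ∀ k, 1 ≤ ν k) : ∃ O, Good D V ν O := by
  obtain ⟨O, h1, h2⟩ := comp (D := D) (V := V) hν (fun _ => false) ∅ 0
  refine ⟨O, ⟨?_, ?_, ?_⟩⟩
  · intro N x w hw hO
    exact (val_cd ((h2 _ (Nat.zero_le _) (by simp) ⟨N, x, _, w, rfl, hw, length_key _ _⟩).1 hO)).2
  · intro N x hN
    refine ⟨List.replicate (D.wl N x.length) false, by simp, ?_⟩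
    rw [h2 _ (Nat.zero_le _) (by simp) ⟨N, x, _, _, rfl, by simp, length_key _ _⟩]
    exact ⟨N, x, _, _, rfl, rfl, hN⟩
  · intro s hs
    by_contra hcode
    rw [h1 _ (Or.inr (Or.inr hcode))] at hs
    exact absurd hs (by simp)

theorem exists_oracle (D : Data) {V ν T S : ℕ → ℕ} (p : ℕ → Prog)
    (A : ℕ → Finset (List Bool)) (hA : ∀ k, (A k).card < V k)
    (hν : ∀ k, 1 ≤ ν k) (hV : ∀ k, V k ≤ 2 ^ (ν k - 1))
    (hmono : ∀ k, lev ν k < lev ν (k + 1))
    (hT : ∀ k, V k * T k < 2 ^ (2 ^ ν k)) (hS : ∀ k, S k < lev ν (k + 1))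
    (hAS : ∀ k, ∀ a ∈ A k, ∀ x : List Bool, x.length = ν k → (pair x a).length + T k ≤ S k)
    (hvis : ∀ k N m, lev ν k ≤ D.qlen N m → D.wl N m ≤ S k → V k ≤ 2 ^ D.kl N m) :
    ∃ O, Good D V ν O ∧ ∀ k, ∀ a ∈ A k, Wrong O (p k) (T k) (ν k) a := by
  have hstep : ∀ (k : ℕ) (O₀ : {O // Good D V ν O}), ∃ O : {O // Good D V ν O},
      (∀ s, s.length < lev ν k → O.1 s = O₀.1 s) ∧
      ∀ a ∈ A k, Wrong O.1 (p k) (T k) (ν k) a := by
    intro k O₀
    obtain ⟨O, h1, h2, h3⟩ := stage hν hV hmono (p := p k) (hT k) (hS k) (hAS k) (hvis k)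
      (hA k) O₀.2
    exact ⟨⟨O, h1⟩, h2, h3⟩
  choose st hst1 hst2 using hstep
  obtain ⟨Ob, hOb⟩ := exists_good D (V := V) hν
  set G : ℕ → {O // Good D V ν O} := fun k => Nat.rec ⟨Ob, hOb⟩ (fun k prev => st k prev) k with hG
  have hG1 : ∀ k, G (k + 1) = st k (G k) := fun k => rfl
  have hag : ∀ k d, ∀ s : List Bool, s.length < lev ν k → (G (k + 1 + d)).1 s = (G k).1 s := by
    intro k d
    induction d with
    | zero => intro s hs; rw [add_zero, hG1]; exact hst1 k _ s hs
    | succ d ih =>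
      intro s hs
      rw [show k + 1 + (d + 1) = (k + 1 + d) + 1 by ring, hG1,
        hst1 _ _ s (lt_of_lt_of_le hs (lev_mono hmono (by omega))), ih s hs]
  have hag2 : ∀ k k', k ≤ k' → ∀ s : List Bool, s.length < lev ν k → (G k').1 s = (G k).1 s := by
    intro k k' hkk s hs
    rcases Nat.eq_or_lt_of_le hkk with rfl | h
    · rfl
    · obtain ⟨d, rfl⟩ : ∃ d, k' = k + 1 + d := ⟨k' - (k + 1), by omega⟩
      exact hag k d s hs
  set O : List Bool → Bool := fun s => (G (s.length + 1)).1 s with hO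
  have hOG : ∀ k, ∀ s : List Bool, s.length < lev ν k → O s = (G k).1 s := by
    intro k s hs
    have h1 : s.length < lev ν (s.length + 1) := by
      have := le_lev hmono (s.length + 1)
      omega
    rcases Nat.le_total k (s.length + 1) with h | h
    · exact hag2 _ _ h s hs
    · exact (hag2 _ _ h s h1).symm
  refine ⟨O, ⟨?_, ?_, ?_⟩, ?_⟩
  · intro N x w hw h1
    set K := (cd N x (key D V ν O N x.length) w).length + 1 with hK
    have hlen : (cd N x (key D V ν O N x.length) w).length < lev ν K := by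
      have := le_lev hmono K
      omega
    have h4 : ∀ s : List Bool, s.length ≤ D.qlen N x.length → O s = (G K).1 s := fun s hs => by
      refine hOG K s ?_
      have := length_lt_cd N x (key D V ν O N x.length) w
      have := D.qlen_le_wl N x.length
      omega
    rw [hOG K _ hlen, key_agree hν h4] at h1
    rw [accN_agree h4]
    exact (G K).2.sound N x w hw h1
  · intro N x hN
    set M := D.qlen N x.length with hM
    have h4 : ∀ k, M + 1 ≤ k → ∀ s : List Bool, s.length ≤ M → O s = (G k).1 s := fun k hk s hs =>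
      hOG _ s (by
        have := le_lev hmono k
        omega)
    set K := N + 4 * x.length + 2 * D.kl N x.length + M + D.wl N x.length + 9 with hK
    have hKM : M + 1 ≤ K := by omega
    rw [accN_agree (h4 K hKM)] at hN
    obtain ⟨w, hw, h1⟩ := (G K).2.complete N x hN
    refine ⟨w, hw, ?_⟩
    rw [key_agree hν (h4 K hKM), hOG K]
    · exact h1
    · rw [length_cd, hw, length_key]
      have := le_lev hmono K
      omega
  · intro s hs
    exact (G ((false :: s).length + 1)).2.codes s hs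
  · intro k a ha
    have h1 := hst2 k (G k) a ha
    rw [← hG1] at h1
    have h2 : ∀ s : List Bool, s.length < lev ν (k + 1) → (G (k + 1)).1 s = O s :=
      fun s hs => (hOG _ s hs).symm
    obtain ⟨x, hx, h3⟩ := h1
    refine ⟨x, hx, fun h4 => h3 ?_⟩
    have e1 : x ∈ WitLang (G (k + 1)).1 ↔ x ∈ WitLang O := witLang_agree fun s hs => h2 s (by
      rw [hx] at hs
      have := hmono k
      unfold lev at this ⊢
      omega)
    have e2 : Acc (G (k + 1)).1 (p k) (T k) (pair x a) ↔ Acc O (p k) (T k) (pair x a) := by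
      have h5 : ∀ s : List Bool, s.length ≤ (pair x a).length + T k →
          (G (k + 1)).1 s = O s := fun s hs => h2 s (by
        have := hAS k a ha x hx
        have := hS k
        omega)
      exact ⟨acc_agree h5, acc_agree fun s hs => (h5 s hs).symm⟩
    rw [e1, e2]
    exact h4

/-- A requirement is met at all large lengths. -/
def Fits (D : Data) (u T n : ℕ) : Prop :=
  u + 1 ≤ n ∧ 2 ^ u * T < 2 ^ (2 ^ n) ∧
    ∀ N m, n + 2 ^ n ≤ D.qlen N m → D.wl N m ≤ 3 * n + 2 + T → u ≤ D.kl N m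

/-- The construction: all requirements, infinitely often. -/
theorem engine {ι : Type} [Countable ι] [Nonempty ι] (D : Data) (p : ι → Prog)
    (u T : ι → ℕ → ℕ) (h : ∀ r, ∀ᶠ n in atTop, Fits D (u r n) (T r n) n) :
    ∃ (V ν : ℕ → ℕ) (O : List Bool → Bool), Good D V ν O ∧
      ∀ r, ∃ᶠ n in atTop, ∀ a : List Bool, a.length < u r n → Wrong O (p r) (T r n) n a := by
  classical
  obtain ⟨rq, hrq⟩ := exists_surjective_nat (ι × ℕ)
  have hex : ∀ k M : ℕ, ∃ n, M ≤ n ∧ Fits D (u (rq k).1 n) (T (rq k).1 n) n := fun k M => by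
    obtain ⟨n, h1, h2⟩ := ((h (rq k).1).and (eventually_ge_atTop M)).exists
    exact ⟨n, h2, h1⟩
  choose f h1 h2 using hex
  set ν : ℕ → ℕ := fun k => Nat.rec (f 0 0)
    (fun k prev => f (k + 1) (3 * prev + 2 + T (rq k).1 prev + 1)) k with hν
  have hF : ∀ k, Fits D (u (rq k).1 (ν k)) (T (rq k).1 (ν k)) (ν k) := by
    intro k
    cases k with
    | zero => exact h2 _ _
    | succ k => exact h2 _ _
  have hS : ∀ k, 3 * ν k + 2 + T (rq k).1 (ν k) < ν (k + 1) := fun k =>
    h1 (k + 1) (3 * ν k + 2 + T (rq k).1 (ν k) + 1)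
  have hmono : ∀ k, lev ν k < lev ν (k + 1) := by
    intro k
    have g1 := hS k
    have g2 : 2 ^ ν k ≤ 2 ^ ν (k + 1) := Nat.pow_le_pow_right (by norm_num) (by omega)
    unfold lev
    omega
  have hν1 : ∀ k, 1 ≤ ν k := fun k => by have := (hF k).1; omega
  obtain ⟨O, hO, hreq⟩ := exists_oracle D (V := fun k => 2 ^ u (rq k).1 (ν k)) (ν := ν)
    (T := fun k => T (rq k).1 (ν k)) (S := fun k => 3 * ν k + 2 + T (rq k).1 (ν k))
    (fun k => p (rq k).1) (fun k => short (u (rq k).1 (ν k))) (fun k => card_short _) hν1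
    (fun k => Nat.pow_le_pow_right (by norm_num) (by have := (hF k).1; omega)) hmono
    (fun k => (hF k).2.1) (fun k => lt_of_lt_of_le (hS k) (Nat.le_add_right _ _))
    (fun k a ha x hx => by
      have g1 := mem_short.1 ha
      have g2 := (hF k).1
      rw [length_pair, hx]
      omega)
    (fun k N m g1 g2 => Nat.pow_le_pow_right (by norm_num) ((hF k).2.2 N m g1 g2))
  refine ⟨_, ν, O, hO, fun r => ?_⟩
  rw [frequently_atTop]
  intro M
  have hνmono : ∀ k, k ≤ ν k := by
    intro k
    induction k with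
    | zero => exact Nat.zero_le _
    | succ k ih =>
      have := hS k
      omega
  have hk : ∃ k, M ≤ k ∧ (rq k).1 = r := by
    by_contra hcon
    push Not at hcon
    choose g hg using fun j : ℕ => hrq (r, j)
    have hginj : Injective g := by
      intro j j' h
      have h1 := hg j
      rw [h, hg j'] at h1
      simpa using h1.symm
    have hlt : ∀ j, g j < M := by
      intro j
      by_contra hge
      push Not at hge
      exact hcon (g j) hge (by rw [hg j])
    have hc := Finset.card_le_card_of_injOn (s := Finset.range (M + 1)) (t := Finset.range M) g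
      (fun j _ => Finset.mem_coe.2 (Finset.mem_range.2 (hlt j))) (fun j _ j' _ h => hginj h)
    rw [Finset.card_range, Finset.card_range] at hc
    omega
  obtain ⟨k, hk, rfl⟩ := hk
  exact ⟨ν k, le_trans hk (hνmono k), fun a ha => hreq k a (mem_short.2 ha)⟩

end Pool.Agent.LibTA48
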