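import Pool.Agent.LibTA48.Coding

/-!
The positive part: the languages of coded facts.
-/

namespace Pool.Agent.LibTA48

open Function Filter Pool.Agent.LibNexp Pool.Agent.LibSpec4

variable {O : List Bool → Bool} {D : Data}

/-- Replace the input `x` by `pair x []`. -/
def pairNil : Prog := .seq (mv 0 1) (.seq (LibSpec4.pushW 0 [true, false]) (LibSpec4.dbl 1 0))

theorem state_pairNil (e : Fin 1 → List Bool) :
    update (update (update (update (update (init e) 0 []) 1 ((init e 0).reverse ++ init e 1)) 0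
      ([true, false] ++ (update (update (init e) 0 []) 1 ((init e 0).reverse ++ init e 1)) 0)) 1 [])
      0 ((((update (update (update (init e) 0 []) 1 ((init e 0).reverse ++ init e 1)) 0
      ([true, false] ++ (update (update (init e) 0 []) 1 ((init e 0).reverse ++ init e 1)) 0)) 1).reverse.flatMap
        fun b => [b, b]) ++ (update (update (update (init e) 0 []) 1 ((init e 0).reverse ++ init e 1)) 0
      ([true, false] ++ (update (update (init e) 0 []) 1 ((init e 0).reverse ++ init e 1)) 0)) 0) =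
      init fun _ : Fin 1 => pair (e 0) [] := by
  have h1 : init e 1 = [] := init_ge e (r := 1) le_rfl
  funext r
  rcases r with _ | _ | r
  · simp [h1, init0, pair]
  · simp [init_ge]
  · simp [init_ge]

theorem run_pairNil {t : ℕ} {e : Fin 1 → List Bool} {σ' : State}
    (h : Run O pairNil t (init e) σ') : σ' = init fun _ : Fin 1 => pair (e 0) [] := by
  obtain ⟨t1, t2, τ1, -, h1, t3, t4, τ2, -, h2, h3⟩ := h
  rw [run_mv (by norm_num)] at h1
  obtain ⟨-, rfl⟩ := h1
  have h2' := LibSpec4.pushW_sound h2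
  subst h2'
  rw [LibSpec4.run_dbl (by norm_num)] at h3
  obtain ⟨-, rfl⟩ := h3
  exact state_pairNil e

theorem run_pairNil' (e : Fin 1 → List Bool) :
    Run O pairNil ((2 * (e 0).length + 1) + (2 + (3 * (e 0).length + 1))) (init e)
      (init fun _ : Fin 1 => pair (e 0) []) := by
  refine ⟨_, _, _, rfl, (run_mv (by norm_num)).2 ⟨by rw [init0], rfl⟩, 2, _, _, rfl,
    LibSpec4.pushW_complete [true, false] _, ?_⟩
  rw [LibSpec4.run_dbl (by norm_num)]
  refine ⟨?_, (state_pairNil e).symm⟩
  have h1 : init e 1 = [] := init_ge e (r := 1) le_rfl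
  simp [h1, init0]

theorem size_one (e : Fin 1 → List Bool) : size e = (e 0).length := by simp [size]

theorem ntime_pairNil {T : ℕ → ℕ} {B : Lang}
    (h : NTime O T fun e : Fin 1 → List Bool => e 0 ∈ B) :
    NTime O (fun n => ((2 * n + 1) + (2 + (3 * n + 1))) + T (2 * n + 2))
      fun e : Fin 1 → List Bool => pair (e 0) [] ∈ B := by
  obtain ⟨p, hp⟩ := h
  refine ⟨.seq pairNil p, fun e => ⟨?_, ?_⟩⟩
  · rintro t σ' ⟨t1, t2, τ, -, h1, h2⟩
    rw [run_pairNil h1] at h2
    exact (hp _).1 _ _ h2
  · intro he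
    obtain ⟨t, σ', ht, h1⟩ := (hp fun _ => pair (e 0) []).2 he
    refine ⟨_, σ', ?_, _, _, _, rfl, run_pairNil' e, h1⟩
    rw [size_one] at ht ⊢
    rw [length_pair, List.length_nil, Nat.add_zero] at ht
    exact Nat.add_le_add_left ht _

theorem ntime_codeLang (hcodes : ∀ s, O (false :: s) = true → IsCode D (false :: s)) (N : ℕ)
    {W : ℕ → ℕ} (hW : ∀ m n, m ≤ n → D.wl N m ≤ W n) :
    NTime O (fun n => W n + (2 + ((2 * n + 1) + ((3 * n + 1) + (N + 2 + 1)))))
      fun e : Fin 1 → List Bool => e 0 ∈ CodeLang O N := by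
  set pre : List Bool := false :: (List.replicate N true ++ [false]) with hpre
  have hpl : pre.length = N + 2 := by simp [hpre]
  have hask : ∀ z w, ask N z w = pre ++ ((z.flatMap fun b => [b, b]) ++ ([true, false] ++ w)) := by
    intro z w
    simp [ask, hpre, pair]
  refine ⟨.seq (guess 1) (.seq (LibSpec4.pushW 1 [true, false]) (.seq (mv 0 2)
      (.seq (LibSpec4.dbl 2 1) (.seq (LibSpec4.pushW 1 pre) (.query 1 true))))),
      fun e => ⟨?_, ?_⟩⟩
  · rintro t σ' ⟨t3, t4, τ2, -, h3, t1, t2, τ1, -, h2, t5, t6, τ3, -, h4, t7, t8, τ4, -, h5,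
      t9, t10, τ5, -, h6, -, h7, rfl⟩
    rw [run_guess] at h3
    obtain ⟨w, -, rfl⟩ := h3
    rw [LibSpec4.pushW_sound h2] at h4
    rw [run_mv (by norm_num)] at h4
    obtain ⟨-, rfl⟩ := h4
    rw [LibSpec4.run_dbl (by norm_num)] at h5
    obtain ⟨-, rfl⟩ := h5
    rw [LibSpec4.pushW_sound h6] at h7
    refine ⟨w, ?_⟩
    rw [hask]
    have a2 : init e 2 = [] := init_ge e (r := 2) (by norm_num)
    have a1 : init e 1 = [] := init_ge e (r := 1) le_rfl
    have a0 : init e 0 = e 0 := init0 e
    simpa [a2, a1, a0] using h7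
  · rintro ⟨w, hw⟩
    have hwl : w.length ≤ W (size e) := by
      obtain ⟨N', x', r', w', h3, h4, -⟩ := hcodes _ hw
      have h3' : ask N (e 0) w = ask N' (pair x' r') w' := h3
      obtain ⟨rfl, hz, rfl⟩ := ask_injective h3'
      rw [h4]
      refine hW _ _ ?_
      have := len_le_size e 0
      rw [hz, length_pair] at this
      omega
    have h3 : Run O (guess 1) w.length (init e) (update (init e) 1 (w ++ init e 1)) :=
      run_guess.2 ⟨w, rfl, rfl⟩
    set τ1 := update (init e) 1 (w ++ init e 1) with hτ1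
    have a0 : τ1 0 = e 0 := by rw [hτ1, update_of_ne (by norm_num), init0]
    have a1 : τ1 1 = w := by
      rw [hτ1, update_self, init_ge e (r := 1) le_rfl, List.append_nil]
    have a2 : τ1 2 = [] := by
      rw [hτ1, update_of_ne (by norm_num), init_ge e (r := 2) (by norm_num)]
    have h4 := LibSpec4.pushW_complete (O := O) (r := 1) [true, false] τ1
    set τ2 := update τ1 1 ([true, false] ++ τ1 1) with hτ2
    have b0 : τ2 0 = e 0 := by rw [hτ2, update_of_ne (by norm_num), a0]
    have b1 : τ2 1 = [true, false] ++ w := by rw [hτ2, update_self, a1]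
    have b2 : τ2 2 = [] := by rw [hτ2, update_of_ne (by norm_num), a2]
    have h5 : Run O (mv 0 2) (2 * (e 0).length + 1) τ2
        (update (update τ2 0 []) 2 (e 0).reverse) :=
      (run_mv (by norm_num)).2 ⟨by rw [b0], by rw [b0, b2, List.append_nil]⟩
    set τ3 := update (update τ2 0 []) 2 (e 0).reverse with hτ3
    have c1 : τ3 1 = [true, false] ++ w := by
      rw [hτ3, update_of_ne (by norm_num), update_of_ne (by norm_num), b1]
    have c2 : τ3 2 = (e 0).reverse := by rw [hτ3, update_self]
    have h6 : Run O (LibSpec4.dbl 2 1) (3 * (e 0).length + 1) τ3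
        (update (update τ3 2 []) 1 (((e 0).flatMap fun b => [b, b]) ++ ([true, false] ++ w))) :=
      (LibSpec4.run_dbl (by norm_num)).2 ⟨by rw [c2, List.length_reverse], by
        rw [c2, c1, List.reverse_reverse]⟩
    set τ4 := update (update τ3 2 []) 1 (((e 0).flatMap fun b => [b, b]) ++ ([true, false] ++ w))
      with hτ4
    have d1 : τ4 1 = ((e 0).flatMap fun b => [b, b]) ++ ([true, false] ++ w) := by
      rw [hτ4, update_self]
    have h7 := LibSpec4.pushW_complete (O := O) (r := 1) pre τ4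
    refine ⟨w.length + (2 + ((2 * (e 0).length + 1) + ((3 * (e 0).length + 1) +
      (pre.length + 1)))), _, ?_, _, _, _, rfl, h3, _, _, _, rfl, h4, _, _, _, rfl, h5,
      _, _, _, rfl, h6, _, _, _, rfl, h7, rfl, ?_, rfl⟩
    · have e0 := len_le_size e 0
      refine Nat.add_le_add hwl ?_
      omega
    · rw [update_self, d1, ← hask]
      exact hw

/-- Complements in the language of coded facts. -/
theorem compl_codeLang {V ν : ℕ → ℕ} (hO : Good D V ν O) {L : Lang} {N : ℕ}
    (hLN : ∀ x, x ∈ L ↔ AccN D O N x) (x : List Bool) :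
    x ∈ Lᶜ ↔ pair x (key D V ν O N x.length) ∈ CodeLang O N := by
  rw [Set.mem_compl_iff, hLN]
  constructor
  · intro h
    obtain ⟨w, -, hw⟩ := hO.complete N x h
    exact ⟨w, hw⟩
  · rintro ⟨w, h2⟩
    obtain ⟨N', x', r', w', h4, h5, -⟩ := hO.codes _ h2
    obtain ⟨rfl, rfl, h6, rfl⟩ := cd_injective (show cd N x _ w = cd N' x' r' w' from h4)
    exact hO.sound N x w h5 h2

end Pool.Agent.LibTA48
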